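import Pool.Agent.H94.FL.Enc

set_option autoImplicit false

namespace Pool.Agent.H94.FL

open scoped Classical
open Pool.Agent.H565R2.FO2 (Code Iso)
open Pool.Agent.H565R2.LO2 (PerfK)

variable {L : FirstOrder.Language.{0, 0}}

/-- `f` is an isomorphism from `c` to `c'` -/
def IsoF (c c' : Code L) (f : ℕ → ℕ) : Prop :=
  ∀ n (R : L.Relations n) (t : Fin n → ℕ), c ⟨n, R, t⟩ = c' ⟨n, R, fun k => f (t k)⟩

theorem IsoF.comp {c c' c'' : Code L} {f g : ℕ → ℕ} (h1 : IsoF c c' f) (h2 : IsoF c' c'' g) :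
    IsoF c c'' fun x => g (f x) := fun n R t => by rw [h1, h2]

theorem IsoF.symm {c c' : Code L} {f : ℕ ≃ ℕ} (h : IsoF c c' f) : IsoF c' c f.symm := by
  intro n R t
  rw [h]
  simp

/-- two points can be exchanged -/
def Tw (c : Code L) (a b : ℕ) : Prop := IsoF c c (Equiv.swap a b)

theorem Tw.refl (c : Code L) (a : ℕ) : Tw c a a := by
  intro n R t
  simp

theorem Tw.symm {c : Code L} {a b : ℕ} (h : Tw c a b) : Tw c b a := by
  unfold Tw
  rw [Equiv.swap_comm]
  exact h

theorem Tw.map {c c' : Code L} {σ : ℕ ≃ ℕ} (hσ : IsoF c c' σ) {a b : ℕ} (h : Tw c a b) :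
    Tw c' (σ a) (σ b) := by
  have h1 := (hσ.symm.comp h).comp hσ
  have h2 : (fun x => σ ((Equiv.swap a b) (σ.symm x))) = Equiv.swap (σ a) (σ b) := by
    funext x
    by_cases h1 : x = σ a
    · subst h1; simp
    by_cases h2 : x = σ b
    · subst h2; simp
    rw [Equiv.swap_apply_of_ne_of_ne h1 h2, Equiv.swap_apply_of_ne_of_ne]
    · simp
    · intro h; apply h1; rw [← h]; simp
    · intro h; apply h2; rw [← h]; simp
  unfold Tw
  rw [← h2]
  exact h1

theorem Tw.trans {c : Code L} {a b d : ℕ} (h1 : Tw c a b) (h2 : Tw c b d) : Tw c a d := by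
  by_cases hbd : b = d
  · subst hbd; exact h1
  by_cases hab : a = b
  · subst hab; exact h2
  by_cases had : a = d
  · subst had; exact Tw.refl _ _
  have h3 := Tw.map (σ := Equiv.swap b d) h2 h1
  rw [Equiv.swap_apply_left, Equiv.swap_apply_of_ne_of_ne hab had] at h3
  exact h3

theorem Tw.iff {c c' : Code L} {σ : ℕ ≃ ℕ} (hσ : IsoF c c' σ) {a b : ℕ} :
    Tw c' (σ a) (σ b) ↔ Tw c a b := by
  refine ⟨fun h => ?_, Tw.map hσ⟩
  have := Tw.map hσ.symm h
  simpa using this

theorem approx {c : Code L} {τ : ℕ → ℕ} (hinj : Function.Injective τ) (hτ : ∀ a, Tw c a (τ a))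
    (S : Finset ℕ) : ∃ g : ℕ ≃ ℕ, IsoF c c g ∧ (∀ x, Tw c x (g x)) ∧ ∀ x ∈ S, g x = τ x := by
  induction S using Finset.induction_on with
  | empty => exact ⟨1, fun n R t => by simp, fun x => Tw.refl _ _, by simp⟩
  | insert a S ha ih =>
    obtain ⟨g, h1, h2, h3⟩ := ih
    have h4 : Tw c (g a) (τ a) := (h2 a).symm.trans (hτ a)
    refine ⟨g.trans (Equiv.swap (g a) (τ a)), ?_, ?_, ?_⟩
    · exact h1.comp h4
    · intro x
      show Tw c x (Equiv.swap (g a) (τ a) (g x))
      refine (h2 x).trans ?_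
      by_cases hx : g x = g a
      · rw [hx, Equiv.swap_apply_left]; exact h4
      by_cases hx' : g x = τ a
      · rw [hx', Equiv.swap_apply_right]; exact h4.symm
      · rw [Equiv.swap_apply_of_ne_of_ne hx hx']; exact Tw.refl _ _
    · intro x hx
      show Equiv.swap (g a) (τ a) (g x) = τ x
      rw [Finset.mem_insert] at hx
      by_cases hxa : x = a
      · subst hxa
        rw [Equiv.swap_apply_left]
      · have hxS := hx.resolve_left hxa
        have h5 : g x ≠ g a := fun h => hxa (g.injective h)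
        have h6 : g x ≠ τ a := by
          rw [h3 x hxS]
          exact fun h => hxa (hinj h)
        rw [Equiv.swap_apply_of_ne_of_ne h5 h6, h3 x hxS]

theorem isoF_of_tw {c : Code L} {τ : ℕ → ℕ} (hinj : Function.Injective τ)
    (hτ : ∀ a, Tw c a (τ a)) : IsoF c c τ := by
  intro n R t
  obtain ⟨g, h1, -, h3⟩ := approx hinj hτ (Finset.univ.image t)
  rw [h1]
  refine congrArg (fun t => c ⟨n, R, t⟩) (funext fun k => ?_)
  exact h3 _ (Finset.mem_image_of_mem _ (Finset.mem_univ _))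

/-- good colourings -/
structure Good (z : ZZ L) : Prop where
  ex : ∀ a, ∃ k, z.2 k a = true
  un : ∀ a k l, z.2 k a = true → z.2 l a = true → k = l
  inj : ∀ a b, Tw z.1 a b → ∀ k, z.2 k a = true → z.2 k b = true → a = b
  low : ∀ a k, z.2 (k + 1) a = true → ∃ b, Tw z.1 a b ∧ z.2 k b = true

theorem Good.lower {z : ZZ L} (h : Good z) {a k : ℕ} (ha : z.2 k a = true) {j : ℕ} (hj : j ≤ k) :
    ∃ b, Tw z.1 a b ∧ z.2 j b = true := by
  induction k generalizing a with
  | zero =>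
    obtain rfl : j = 0 := by omega
    exact ⟨a, Tw.refl _ _, ha⟩
  | succ k ih =>
    by_cases hjk : j = k + 1
    · subst hjk
      exact ⟨a, Tw.refl _ _, ha⟩
    · obtain ⟨b, h1, h2⟩ := h.low a k ha
      obtain ⟨d, h3, h4⟩ := ih h2 (by omega)
      exact ⟨d, h1.trans h3, h4⟩

theorem Good.match {z z' : ZZ L} (h : Good z) (h' : Good z') {σ : ℕ ≃ ℕ} (hσ : IsoF z.1 z'.1 σ)
    {a k : ℕ} (ha : z.2 k a = true) : ∃ b, Tw z'.1 (σ a) b ∧ z'.2 k b = true := by
  choose x hx1 hx2 using fun j : Fin (k + 1) => h.lower ha (Nat.le_of_lt_succ j.2)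
  choose y hy using fun j : Fin (k + 1) => h'.ex (σ (x j))
  have hyi : Function.Injective y := by
    intro i j hij
    have h1 : Tw z'.1 (σ (x i)) (σ (x j)) := ((hx1 i).symm.trans (hx1 j)).map hσ
    have h2 : z'.2 (y i) (σ (x j)) = true := by rw [hij]; exact hy j
    have h3 := σ.injective (h'.inj _ _ h1 _ (hy i) h2)
    have h4 := hx2 i
    rw [h3] at h4
    exact Fin.ext (h.un _ _ _ h4 (hx2 j))
  have h1 : ∃ j, k ≤ y j := by
    by_contra hc
    push Not at hc
    have := Fintype.card_le_of_injective (fun j => (⟨y j, hc j⟩ : Fin k)) fun i j hij =>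
      hyi (congrArg Fin.val hij)
    simp at this
  obtain ⟨j, hj⟩ := h1
  obtain ⟨b, h2, h3⟩ := h'.lower (hy j) hj
  exact ⟨b, ((hx1 j).map hσ).trans h2, h3⟩

theorem Good.lift {z z' : ZZ L} (h : Good z) (h' : Good z') {σ : ℕ ≃ ℕ} (hσ : IsoF z.1 z'.1 σ) :
    ∃ τ, IsoZ z z' τ := by
  have h1 : ∀ a, ∃ b, Tw z'.1 (σ a) b ∧ ∃ k, z.2 k a = true ∧ z'.2 k b = true := by
    intro a
    obtain ⟨k, hk⟩ := h.ex a
    obtain ⟨b, h1, h2⟩ := h.match h' hσ hk
    exact ⟨b, h1, k, hk, h2⟩
  choose τ hτ κ hκ hκ' using h1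
  have hinj : Function.Injective τ := by
    intro a b hab
    have h2 : Tw z'.1 (σ a) (σ b) := by
      refine (hτ a).trans ?_
      rw [hab]
      exact (hτ b).symm
    have h3 : κ a = κ b := h'.un _ _ _ (hκ' a) (by rw [hab]; exact hκ' b)
    exact h.inj _ _ ((Tw.iff hσ).1 h2) _ (hκ a) (by rw [h3]; exact hκ b)
  have hsurj : Function.Surjective τ := by
    intro b
    obtain ⟨k, hk⟩ := h'.ex b
    obtain ⟨a, h2, h3⟩ := h'.match h hσ.symm hk
    refine ⟨a, ?_⟩
    have h4 : Tw z'.1 b (σ a) := by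
      have := h2.map hσ
      simpa using this
    have h5 : κ a = k := h.un _ _ _ (hκ a) h3
    have h6 := hκ' a
    rw [h5] at h6
    exact (h'.inj _ _ (h4.trans (hτ a)) _ hk h6).symm
  let τ' : ℕ ≃ ℕ := Equiv.ofBijective τ ⟨hinj, hsurj⟩
  refine ⟨τ', ?_, ?_⟩
  · have h2 : IsoF z'.1 z'.1 fun x => τ (σ.symm x) := by
      refine isoF_of_tw (fun x y hxy => σ.symm.injective (hinj hxy)) fun x => ?_
      have := hτ (σ.symm x)
      simpa using this
    intro n R t
    rw [hσ, h2]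
    simp only [Equiv.symm_apply_apply]
    rfl
  · intro k a
    show z.2 k a = z'.2 k (τ a)
    rw [Bool.eq_iff_iff]
    constructor
    · intro hk
      rw [h.un _ _ _ hk (hκ a)]
      exact hκ' a
    · intro hk
      rw [h'.un _ _ _ hk (hκ' a)]
      exact hκ a

theorem exists_good (c : Code L) : ∃ z : ZZ L, z.1 = c ∧ Good z := by
  let S : ℕ → Finset ℕ := fun a => (Finset.range a).filter fun b => Tw c a b
  let rk : ℕ → ℕ := fun a => (S a).card
  have hmem : ∀ a x, x ∈ S a ↔ x < a ∧ Tw c a x := fun a x => by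
    simp [S]
  have hlt : ∀ a b, Tw c a b → a < b → rk a < rk b := by
    intro a b h1 h2
    refine Finset.card_lt_card (Finset.ssubset_iff.2 ⟨a, ?_, ?_⟩)
    · rw [hmem]; exact fun h => absurd h.1 (lt_irrefl _)
    · intro x hx
      rw [Finset.mem_insert] at hx
      rcases hx with rfl | hx
      · rw [hmem]; exact ⟨h2, h1.symm⟩
      · rw [hmem] at hx ⊢
        exact ⟨hx.1.trans h2, h1.symm.trans hx.2⟩
  refine ⟨(c, fun k a => decide (k = rk a)), rfl, ?_, ?_, ?_, ?_⟩
  · intro a; exact ⟨rk a, by simp⟩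
  · intro a k l hk hl
    simp only [decide_eq_true_eq] at hk hl
    rw [hk, hl]
  · intro a b hab k hk hl
    simp only [decide_eq_true_eq] at hk hl
    rcases lt_trichotomy a b with h | h | h
    · have := hlt a b hab h; omega
    · exact h
    · have := hlt b a hab.symm h; omega
  · intro a k hk
    simp only [decide_eq_true_eq] at hk
    have hne : (S a).Nonempty := by
      rw [← Finset.card_pos]
      show 0 < rk a
      omega
    have hb := (S a).max'_mem hne
    set b := (S a).max' hne with hbdef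
    rw [hmem] at hb
    refine ⟨b, hb.2, ?_⟩
    simp only [decide_eq_true_eq]
    have h1 : S b = (S a).erase b := by
      ext x
      rw [hmem, Finset.mem_erase, hmem]
      constructor
      · rintro ⟨h1, h2⟩
        exact ⟨ne_of_lt h1, h1.trans hb.1, hb.2.trans h2⟩
      · rintro ⟨h1, h2, h3⟩
        have h4 : x ≤ b := (S a).le_max' x (by rw [hmem]; exact ⟨h2, h3⟩)
        exact ⟨lt_of_le_of_ne h4 h1, hb.2.symm.trans h3⟩
    have h2 : rk b = rk a - 1 := by
      show (S b).card = _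
      rw [h1, Finset.card_erase_of_mem (by rw [hmem]; exact hb)]
    omega

theorem meas_tw [Countable (Σ n, L.Relations n)] (a b : ℕ) :
    MeasurableSet {z : ZZ L | Tw z.1 a b} := by
  haveI : ∀ n, Countable (L.Relations n) := fun n =>
    Function.Injective.countable (f := fun R : L.Relations n => (⟨n, R⟩ : Σ n, L.Relations n))
      sigma_mk_injective
  have h1 : {z : ZZ L | Tw z.1 a b} = ⋂ p : (Σ n, L.Relations n × (Fin n → ℕ)),
      {z | z.1 p = z.1 ⟨p.1, p.2.1, fun k => Equiv.swap a b (p.2.2 k)⟩} := by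
    ext z
    simp only [Set.mem_iInter, Set.mem_ofPred_eq]
    constructor
    · rintro h ⟨n, R, t⟩
      exact h n R t
    · intro h n R t
      exact h ⟨n, R, t⟩
  rw [h1]
  refine MeasurableSet.iInter fun p => ?_
  exact measurableSet_eq_fun (by fun_prop) (by fun_prop)

theorem meas_col (k a : ℕ) : MeasurableSet {z : ZZ L | z.2 k a = true} := by
  have h : Measurable fun z : ZZ L => z.2 k a := by fun_prop
  exact h (measurableSet_singleton true)

theorem meas_good [Countable (Σ n, L.Relations n)] : MeasurableSet {z : ZZ L | Good z} := by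
  have h1 : {z : ZZ L | Good z} =
      ((⋂ a, ⋃ k, {z | z.2 k a = true}) ∩
        (⋂ a, ⋂ k, ⋂ l, {z | z.2 k a = true → z.2 l a = true → k = l})) ∩
      ((⋂ a, ⋂ b, {z | Tw z.1 a b → ∀ k, z.2 k a = true → z.2 k b = true → a = b}) ∩
        (⋂ a, ⋂ k, {z | z.2 (k + 1) a = true → ∃ b, Tw z.1 a b ∧ z.2 k b = true})) := by
    ext z
    simp only [Set.mem_inter_iff, Set.mem_iInter, Set.mem_iUnion, Set.mem_ofPred_eq]
    exact ⟨fun h => ⟨⟨h.ex, h.un⟩, h.inj, h.low⟩, fun h => ⟨h.1.1, h.1.2, h.2.1, h.2.2⟩⟩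
  rw [h1]
  have hc : ∀ k a, Measurable fun z : ZZ L => z.2 k a = true := fun k a =>
    measurableSet_setOfPred.1 (meas_col k a)
  have ht : ∀ a b, Measurable fun z : ZZ L => Tw z.1 a b := fun a b =>
    measurableSet_setOfPred.1 (meas_tw a b)
  refine ((MeasurableSet.iInter fun a => MeasurableSet.iUnion fun k => meas_col k a).inter
    (MeasurableSet.iInter fun a => MeasurableSet.iInter fun k => MeasurableSet.iInter fun l =>
      measurableSet_setOfPred.2 ?_)).inter
    ((MeasurableSet.iInter fun a => MeasurableSet.iInter fun b =>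
      measurableSet_setOfPred.2 ?_).inter
    (MeasurableSet.iInter fun a => MeasurableSet.iInter fun k => measurableSet_setOfPred.2 ?_))
  · exact (hc k a).imp ((hc l a).imp measurable_const)
  · exact (ht a b).imp (Measurable.forall fun k => (hc k a).imp ((hc k b).imp measurable_const))
  · exact (hc _ a).imp (Measurable.exists fun b => (ht a b).and (hc k b))

theorem Good.iso {z z' : ZZ L} (h : Good z) {σ : ℕ ≃ ℕ} (hσ : IsoZ z z' σ) : Good z' := by
  have h1 : IsoF z.1 z'.1 σ := hσ.1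
  have h2 : ∀ k a, z'.2 k a = z.2 k (σ.symm a) := fun k a => by
    rw [hσ.2]; simp
  have h3 : ∀ {a b}, Tw z'.1 a b → Tw z.1 (σ.symm a) (σ.symm b) := fun h => h.map h1.symm
  constructor
  · intro a
    obtain ⟨k, hk⟩ := h.ex (σ.symm a)
    exact ⟨k, by rw [h2]; exact hk⟩
  · intro a k l hk hl
    rw [h2] at hk hl
    exact h.un _ _ _ hk hl
  · intro a b hab k hk hl
    rw [h2] at hk hl
    exact σ.symm.injective (h.inj _ _ (h3 hab) _ hk hl)
  · intro a k hk
    rw [h2] at hk
    obtain ⟨b, h4, h5⟩ := h.low _ _ hk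
    refine ⟨σ b, ?_, ?_⟩
    · have := h4.map h1
      simpa using this
    · rw [← hσ.2]; exact h5

/-- The dichotomy for classes of structures in which every point can be exchanged with all points
of its orbit. -/
theorem swap_dich [Countable (Σ n, L.Relations n)] (K : Set (Code L)) (hK : MeasurableSet K)
    (hinv : ∀ c c' (σ : ℕ ≃ ℕ), IsoF c c' σ → c ∈ K → c' ∈ K)
    (hsw : ∀ c ∈ K, ∀ σ : ℕ ≃ ℕ, IsoF c c σ → ∀ a, Tw c a (σ a)) :
    (∃ g : ℕ → Code L, ∀ c ∈ K, ∃ n, Iso c (g n)) ∨ PerfK K := by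
  have hB : MeasurableSet {z : ZZ L | z.1 ∈ K ∧ Good z} :=
    (measurable_fst hK).inter meas_good
  rcases rigid_dich {z : ZZ L | z.1 ∈ K ∧ Good z} hB
    (fun z z' σ h hz => ⟨hinv _ _ _ h.1 hz.1, hz.2.iso h⟩) (fun z hz σ h => by
      refine Equiv.ext fun a => ?_
      obtain ⟨k, hk⟩ := hz.2.ex a
      have h1 := hk
      rw [h.2] at h1
      exact (hz.2.inj _ _ (hsw _ hz.1 σ h.1 a) _ hk h1).symm) with ⟨f, hf⟩ | ⟨g, hg1, hg2, hg3⟩
  · left
    refine ⟨fun n => (f n).1, fun c hc => ?_⟩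
    obtain ⟨z, rfl, hz⟩ := exists_good c
    obtain ⟨n, σ, hσ⟩ := hf z ⟨hc, hz⟩
    exact ⟨n, σ.symm, IsoF.symm hσ.1⟩
  · right
    refine ⟨fun c => (g c).1, continuous_fst.comp hg1, fun c => (hg2 c).1, ?_⟩
    rintro c d ⟨σ, hσ⟩
    obtain ⟨τ, hτ⟩ := (hg2 c).2.lift (hg2 d).2 hσ
    exact hg3 c d τ hτ

end Pool.Agent.H94.FL
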