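import Pool.Agent.H94.FL.Sim

set_option autoImplicit false

namespace Pool.Agent.H94.FL

open scoped Classical

variable {Γ : Type}

/-- `a` is the only element of its type -/
def King (χ : List ℕ → Γ) (a : ℕ) : Prop := ∀ b, Sim χ χ [b] [a] → b = a

/-- names for the elements of the new structures, and the place of the coding -/
structure Cfg (χ : List ℕ → Γ) where
  ν : ℕ → ℕ
  sp : ℕ → ℕ
  mt : ℕ → ℕ
  ι : ℕ → ℕ
  al : List ℕ
  a0 : ℕ
  c1 : ℕ
  c2 : ℕ
  sp_inj : Function.Injective sp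
  mt_inj : Function.Injective mt
  ν_sp : ∀ j, ν (sp j) = c1
  ν_mt : ∀ t, ν (mt t) = a0
  ν_ι : ∀ a, ν (ι a) = a
  mt_ns : ∀ t j, mt t ≠ sp j
  ι_ns : ∀ a j, ι a ≠ sp j
  king : ∀ n n', King χ (ν n) → ν n = ν n' → n = n'
  inf : ∀ a, ¬ King χ a → {n | ν n = a ∧ ∀ j, n ≠ sp j}.Infinite
  ha0 : a0 ∈ al
  nk : ¬ King χ a0
  h12 : Sim χ χ (c1 :: al.dropLast) (c2 :: al.dropLast)
  hne : ¬ Sim χ χ (c1 :: al) (c2 :: al)
  hc1 : al.head? ≠ some c1
  hc2 : al.head? ≠ some c2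

/-- `b'` can be used for `b` -/
def Cand (χ : List ℕ → Γ) (p p' : List ℕ) (b b' : ℕ) : Prop :=
  Sim χ χ (b' :: p.dropLast) (b :: p') ∧ p.head? ≠ some b'

noncomputable def dflt (χ : List ℕ → Γ) (p p' : List ℕ) (b : ℕ) : ℕ :=
  if h : ∃ b', Cand χ p p' b b' then h.choose else 0

theorem dflt_spec {χ : List ℕ → Γ} {p p' : List ℕ} {b : ℕ} (h : ∃ b', Cand χ p p' b b') :
    Cand χ p p' b (dflt χ p p' b) := by
  unfold dflt
  rw [dif_pos h]
  exact h.choose_spec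

namespace Cfg

variable {χ : List ℕ → Γ} (C : Cfg χ)

def Sp (n : ℕ) : Prop := ∃ j, n = C.sp j

/-- different neighbours have different names -/
def Std (l : List ℕ) : Prop := l.IsChain fun x y => x ≠ y → C.ν x ≠ C.ν y

/-- the places for the coding -/
noncomputable def nb (t : ℕ) : List ℕ := C.al.map fun a => if a = C.a0 then C.mt t else C.ι a

/-- the requirements for a partition -/
def Part (p p' : List ℕ) (n0 : ℕ) (g f : ℕ → ℕ) : Prop :=
  (∀ n, ¬ C.Sp n → n ≠ n0 → Cand χ p p' (g n) (f n)) ∧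
  ∀ a, ¬ King χ a → p.head? ≠ some a →
    {n | ¬ C.Sp n ∧ n ≠ n0 ∧ Sim χ χ (f n :: p) (a :: p)}.Infinite

noncomputable def part (p p' : List ℕ) (n0 : ℕ) (g : ℕ → ℕ) : ℕ → ℕ :=
  if h : ∃ f, C.Part p p' n0 g f then h.choose else fun _ => 0

theorem part_spec {p p' : List ℕ} {n0 : ℕ} {g : ℕ → ℕ} (h : ∃ f, C.Part p p' n0 g f) :
    C.Part p p' n0 g (C.part p p' n0 g) := by
  unfold part
  rw [dif_pos h]
  exact h.choose_spec

/-- state: values at ordinary elements, values at special elements, the list -/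
abbrev St := (ℕ → ℕ) × (ℕ → ℕ) × List ℕ

noncomputable def val (s : St) (n : ℕ) : ℕ := if h : C.Sp n then s.2.1 h.choose else s.1 n

theorem val_sp (s : St) (j : ℕ) : C.val s (C.sp j) = s.2.1 j := by
  unfold val
  have h : C.Sp (C.sp j) := ⟨j, rfl⟩
  rw [dif_pos h]
  have h2 : h.choose = j := C.sp_inj h.choose_spec.symm
  rw [h2]

theorem val_ns (s : St) {n : ℕ} (h : ¬ C.Sp n) : C.val s n = s.1 n := by
  unfold val
  rw [dif_neg h]

noncomputable def stepB (l : List ℕ) (n0 v : ℕ) (p p' : List ℕ) (g : ℕ → ℕ) : ℕ → ℕ := fun n =>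
  if n = n0 then v
  else if l.length < C.al.length ∧ C.Std (n :: l) then C.ν n
  else C.part p p' n0 g n

noncomputable def stepS (γ : ℕ → ℕ → Bool) (l : List ℕ) (n0 v : ℕ) (p p' : List ℕ) (s : ℕ → ℕ) :
    ℕ → ℕ := fun j =>
  if C.sp j = n0 then v
  else if l.length < C.al.length ∧ C.Std (C.sp j :: l) then C.c1
  else if ∃ t, l = C.nb t then (if ∃ t, l = C.nb t ∧ γ j t = true then C.c1 else C.c2)
  else dflt χ p p' (s j)

noncomputable def F (γ : ℕ → ℕ → Bool) : List ℕ → St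
  | [] => (C.ν, fun _ => C.c1, [])
  | n0 :: l =>
    (C.stepB (n0 :: l) n0 (C.val (F γ l) n0) (C.val (F γ l) n0 :: (F γ l).2.2)
        (F γ (n0 :: l).dropLast).2.2 (F γ (n0 :: l).dropLast).1,
      C.stepS γ (n0 :: l) n0 (C.val (F γ l) n0) (C.val (F γ l) n0 :: (F γ l).2.2)
        (F γ (n0 :: l).dropLast).2.2 (F γ (n0 :: l).dropLast).2.1,
      C.val (F γ l) n0 :: (F γ l).2.2)
  termination_by l => l.length

noncomputable def bet (γ : ℕ → ℕ → Bool) (l : List ℕ) (n : ℕ) : ℕ := C.val (C.F γ l) n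

noncomputable def lam (γ : ℕ → ℕ → Bool) (l : List ℕ) : List ℕ := (C.F γ l).2.2

variable (γ : ℕ → ℕ → Bool)

theorem lam_nil : C.lam γ [] = [] := by
  unfold lam
  rw [F]

theorem lam_cons (n : ℕ) (l : List ℕ) : C.lam γ (n :: l) = C.bet γ l n :: C.lam γ l := by
  unfold lam bet
  conv_lhs => rw [F]

theorem lam_length (l : List ℕ) : (C.lam γ l).length = l.length := by
  induction l with
  | nil => rw [lam_nil]
  | cons n l ih => rw [lam_cons, List.length_cons, List.length_cons, ih]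

theorem bet_nil (n : ℕ) : C.bet γ [] n = C.ν n := by
  unfold bet
  by_cases h : C.Sp n
  · obtain ⟨j, rfl⟩ := h
    rw [val_sp, F, C.ν_sp]
  · rw [C.val_ns _ h, F]

theorem bet_head (n0 : ℕ) (l : List ℕ) : C.bet γ (n0 :: l) n0 = C.bet γ l n0 := by
  unfold bet
  by_cases h : C.Sp n0
  · obtain ⟨j, rfl⟩ := h
    conv_lhs => rw [val_sp, F]
    simp only [stepS, if_true]
  · conv_lhs => rw [C.val_ns _ h, F]
    simp only [stepB, if_true]

theorem bet_std {n0 : ℕ} {l : List ℕ} {n : ℕ} (hn : n ≠ n0) (hl : (n0 :: l).length < C.al.length)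
    (hs : C.Std (n :: n0 :: l)) : C.bet γ (n0 :: l) n = C.ν n := by
  unfold bet
  by_cases h : C.Sp n
  · obtain ⟨j, rfl⟩ := h
    rw [val_sp, F]
    simp only [stepS, if_neg hn, if_pos (And.intro hl hs), C.ν_sp]
  · rw [C.val_ns _ h, F]
    simp only [stepB, if_neg hn, if_pos (And.intro hl hs)]

theorem bet_part {n0 : ℕ} {l : List ℕ} {n : ℕ} (hn : n ≠ n0)
    (hs : ¬ ((n0 :: l).length < C.al.length ∧ C.Std (n :: n0 :: l))) (h : ¬ C.Sp n) :
    C.bet γ (n0 :: l) n = C.part (C.lam γ (n0 :: l)) (C.lam γ (n0 :: l).dropLast) n0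
      (C.F γ (n0 :: l).dropLast).1 n := by
  rw [lam_cons]
  unfold bet lam
  conv_lhs => rw [C.val_ns _ h, F]
  simp only [stepB, if_neg hn, if_neg hs]

theorem bet_code {n0 : ℕ} {l : List ℕ} {j : ℕ} (hn : C.sp j ≠ n0)
    (hs : ¬ ((n0 :: l).length < C.al.length ∧ C.Std (C.sp j :: n0 :: l)))
    (h : ∃ t, n0 :: l = C.nb t) : C.bet γ (n0 :: l) (C.sp j) =
      if ∃ t, n0 :: l = C.nb t ∧ γ j t = true then C.c1 else C.c2 := by
  unfold bet
  conv_lhs => rw [val_sp, F]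
  simp only [stepS, if_neg hn, if_neg hs, if_pos h]

theorem bet_dflt {n0 : ℕ} {l : List ℕ} {j : ℕ} (hn : C.sp j ≠ n0)
    (hs : ¬ ((n0 :: l).length < C.al.length ∧ C.Std (C.sp j :: n0 :: l)))
    (h : ¬ ∃ t, n0 :: l = C.nb t) : C.bet γ (n0 :: l) (C.sp j) =
      dflt χ (C.lam γ (n0 :: l)) (C.lam γ (n0 :: l).dropLast)
        (C.bet γ (n0 :: l).dropLast (C.sp j)) := by
  rw [lam_cons]
  unfold bet lam
  conv_lhs => rw [val_sp, F]
  simp only [stepS, if_neg hn, if_neg hs, if_neg h]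
  rw [val_sp]

end Cfg

end Pool.Agent.H94.FL
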