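import Pool.Agent.H94.FL.Meas

set_option autoImplicit false

namespace Pool.Agent.H94.FL

open scoped Classical
open Pool.Agent.H565R2.FO2 (Code Iso)
open Pool.Agent.H565R2.LO2 (PerfK perfK_of_inv)

variable {L : FirstOrder.Language.{0, 0}}

/-- the colour of a list: the set of the relations which hold for the list (newest element first) -/
def chi (c : Code L) (l : List ℕ) : Set (Σ n, L.Relations n) :=
  {p | p.1 = l.length ∧ c ⟨p.1, p.2, fun i => l.reverse.getD i 0⟩ = true}

/-- the list of a tuple -/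
def lt {n : ℕ} (t : Fin n → ℕ) : List ℕ := (List.ofFn t).reverse

theorem lt_length {n : ℕ} (t : Fin n → ℕ) : (lt t).length = n := by simp [lt]

theorem lt_getD {n : ℕ} (t : Fin n → ℕ) (i : Fin n) : (lt t).reverse.getD i 0 = t i := by
  unfold lt
  rw [List.reverse_reverse, List.getD_eq_getElem _ _ (by simp), List.getElem_ofFn]

theorem lt_of {n : ℕ} (l : List ℕ) (h : n = l.length) :
    lt (fun i : Fin n => l.reverse.getD i 0) = l := by
  subst h
  unfold lt
  rw [List.reverse_eq_iff]
  refine List.ext_getElem (by simp) fun i h1 h2 => ?_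
  rw [List.getElem_ofFn, List.getD_eq_getElem _ _ h2]

theorem lt_map {n : ℕ} (t : Fin n → ℕ) (f : ℕ → ℕ) : (lt t).map f = lt (fun i => f (t i)) := by
  unfold lt
  rw [List.map_reverse, List.map_ofFn]
  rfl

theorem mem_chi_lt (c : Code L) {n : ℕ} (R : L.Relations n) (t : Fin n → ℕ) :
    (⟨n, R⟩ : Σ n, L.Relations n) ∈ chi c (lt t) ↔ c ⟨n, R, t⟩ = true := by
  unfold chi
  rw [Set.mem_ofPred_eq]
  have h : (fun i : Fin n => (lt t).reverse.getD i 0) = t := funext fun i => lt_getD t i
  simp only [lt_length, true_and, h]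

theorem chi_ext {c : Code L} {l : List ℕ} {n : ℕ} (h : n = l.length) (R : L.Relations n) :
    (⟨n, R⟩ : Σ n, L.Relations n) ∈ chi c l ↔ c ⟨n, R, fun i => l.reverse.getD i 0⟩ = true := by
  rw [← mem_chi_lt c R, lt_of l h]

/-- the structure with the colours `chi c (h l)` -/
noncomputable def newc (c : Code L) (h : List ℕ → List ℕ) : Code L :=
  fun p => decide ((⟨p.1, p.2.1⟩ : Σ n, L.Relations n) ∈ chi c (h (lt p.2.2)))

theorem chi_newc (c : Code L) (h : List ℕ → List ℕ) (hh : ∀ l, (h l).length = l.length)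
    (l : List ℕ) : chi (newc c h) l = chi c (h l) := by
  ext ⟨n, R⟩
  by_cases hn : n = l.length
  · rw [chi_ext hn]
    unfold newc
    rw [decide_eq_true_iff]
    dsimp only
    rw [lt_of l hn]
  · constructor
    · rintro ⟨h1, -⟩
      exact absurd h1 hn
    · rintro ⟨h1, -⟩
      rw [hh] at h1
      exact absurd h1 hn

theorem iso_chi {c c' : Code L} (g : ℕ ≃ ℕ)
    (hg : ∀ n (R : L.Relations n) (t : Fin n → ℕ), c ⟨n, R, t⟩ = c' ⟨n, R, fun k => g (t k)⟩)
    (l : List ℕ) : chi c' (l.map g) = chi c l := by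
  ext ⟨n, R⟩
  by_cases hn : n = l.length
  · rw [chi_ext hn, chi_ext (by rw [List.length_map]; exact hn), hg]
    have : (fun i : Fin n => (l.map g).reverse.getD i 0) =
        fun i : Fin n => g (l.reverse.getD i 0) := by
      funext i
      rw [← List.map_reverse]
      have hi : (i : ℕ) < l.reverse.length := by rw [List.length_reverse, ← hn]; exact i.2
      rw [List.getD_eq_getElem _ _ (by rw [List.length_map]; exact hi),
        List.getD_eq_getElem _ _ hi, List.getElem_map]
    rw [this]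
  · constructor
    · rintro ⟨h1, -⟩
      rw [List.length_map] at h1
      exact absurd h1 hn
    · rintro ⟨h1, -⟩
      exact absurd h1 hn

theorem chi_iso {c c' : Code L} (g : ℕ ≃ ℕ) (hg : ∀ l, chi c' (l.map g) = chi c l) {n : ℕ}
    (R : L.Relations n) (t : Fin n → ℕ) : c ⟨n, R, t⟩ = c' ⟨n, R, fun k => g (t k)⟩ := by
  rw [Bool.eq_iff_iff, ← mem_chi_lt, ← mem_chi_lt, ← hg (lt t), lt_map]

theorem perf_of_cfg [∀ n, Countable (L.Relations n)] {c : Code L} (C : Cfg (chi c))
    {K : Set (Code L)} (hK : ∀ c', Sim (chi c') (chi c) [] [] → c' ∈ K) : PerfK K := by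
  have hlen : ∀ x : ℕ → Bool, ∀ l, (C.lam (C.gm x) l).length = l.length :=
    fun x l => C.lam_length _ l
  have hcol : ∀ (x : ℕ → Bool) l, chi (newc c (C.lam (C.gm x))) l = C.col (C.gm x) l :=
    fun x l => chi_newc c _ (hlen x) l
  refine perfK_of_inv (Y := ℕ → Bool) (Z := ℕ → Bool) (ι := List ℕ × ℕ)
    (fun x => newc c (C.lam (C.gm x))) ?_ ?_ C.J C.meas_J ?_ ?_
  · refine Continuous.measurable (continuous_pi fun p => ?_)
    exact ((C.lc_lam (lt p.2.2)).comp fun l =>
      decide ((⟨p.1, p.2.1⟩ : Σ n, L.Relations n) ∈ chi c l)).continuous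
  · intro x
    refine hK _ ?_
    have h1 : chi (newc c (C.lam (C.gm x))) = C.col (C.gm x) := funext (hcol x)
    rw [h1, C.sim_iff, C.lam_nil]
    exact Sim.refl _ _
  · rintro y y' ⟨g, hg⟩ q
    refine ⟨(q.1.map g, g q.2), C.J_iso g (fun l => ?_) q⟩
    rw [← hcol, ← hcol]
    exact iso_chi g hg l
  · intro hc
    refine Pool.Agent.H565R2.FO2.Cfg.cantor_unc (hc.mono fun x _ => ?_)
    exact Set.mem_iUnion.2 ⟨(C.q0, C.sp 0), x, C.J_self x⟩

end Pool.Agent.H94.FL
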