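import Pool.Agent.H94.FL.Equiv

set_option autoImplicit false

namespace Pool.Agent.H94.FL

open scoped Classical

variable {Γ : Type}

namespace Cfg

variable {χ : List ℕ → Γ} (C : Cfg χ)

theorem al_ne : C.al ≠ [] := by
  intro h
  have := C.ha0
  rw [h] at this
  exact absurd this (by simp)

theorem F_indep (γ γ' : ℕ → ℕ → Bool) (l : List ℕ) :
    (l.length < C.al.length → C.F γ l = C.F γ' l) ∧
    (l.length ≤ C.al.length → (C.F γ l).1 = (C.F γ' l).1 ∧ (C.F γ l).2.2 = (C.F γ' l).2.2) := by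
  induction hk : l.length using Nat.strong_induction_on generalizing l with
  | _ k ih =>
  subst hk
  cases l with
  | nil =>
    rw [F, F]
    exact ⟨fun _ => rfl, fun _ => ⟨rfl, rfl⟩⟩
  | cons n0 t =>
    have key : (n0 :: t).length ≤ C.al.length →
        C.F γ t = C.F γ' t ∧ C.F γ (n0 :: t).dropLast = C.F γ' (n0 :: t).dropLast := by
      intro h
      refine ⟨(ih t.length (by simp) t rfl).1 (by simp only [List.length_cons] at h; omega), ?_⟩
      refine (ih (n0 :: t).dropLast.length (by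
        rw [List.length_dropLast]; simp) _ rfl).1 ?_
      rw [List.length_dropLast]
      simp only [List.length_cons] at h ⊢
      omega
    constructor
    · intro h
      obtain ⟨h1, h2⟩ := key h.le
      have hco : ¬ ∃ i, n0 :: t = C.nb i := by
        rintro ⟨i, hi⟩
        have := C.nb_length i
        rw [← hi] at this
        omega
      conv_lhs => rw [F]
      conv_rhs => rw [F]
      rw [h1, h2]
      unfold stepS
      simp only [if_neg hco]
    · intro h
      obtain ⟨h1, h2⟩ := key h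
      constructor
      · conv_lhs => rw [F]
        conv_rhs => rw [F]
        rw [h1, h2]
      · conv_lhs => rw [F]
        conv_rhs => rw [F]
        rw [h1]

theorem bet_indep (γ γ' : ℕ → ℕ → Bool) {l : List ℕ} {n : ℕ} (hl : l.length ≤ C.al.length)
    (hn : ¬ C.Sp n) : C.bet γ l n = C.bet γ' l n := by
  unfold bet
  rw [C.val_ns _ hn, C.val_ns _ hn, ((C.F_indep γ γ' l).2 hl).1]

/-- `a0` replaced by `m` -/
def sub (q : List ℕ) (m : ℕ) : List ℕ := List.zipWith (fun a x => if a = C.a0 then m else x) C.al q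

theorem sub_map (f : ℕ → ℕ) (q : List ℕ) (m : ℕ) :
    (C.sub q m).map f = C.sub (q.map f) (f m) := by
  unfold sub
  rw [List.map_zipWith, List.zipWith_map_right]
  congr 1
  funext a x
  split_ifs <;> rfl

noncomputable def q0 : List ℕ := C.al.map C.ι

theorem sub_q0 (m : ℕ) : C.sub C.q0 m = C.al.map fun a => if a = C.a0 then m else C.ι a := by
  unfold sub q0
  rw [List.zipWith_map_right, List.zipWith_self]

theorem sub_nb (t : ℕ) : C.sub C.q0 (C.mt t) = C.nb t := C.sub_q0 _

theorem nb_inj {m t : ℕ} (h : C.sub C.q0 m = C.nb t) : m = C.mt t := by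
  rw [sub_q0] at h
  unfold nb at h
  have h1 := (List.map_inj_left.1 h) C.a0 C.ha0
  simpa using h1

theorem mem_sub {m j : ℕ} (h : C.sp j ∈ C.sub C.q0 m) : m = C.sp j := by
  rw [sub_q0, List.mem_map] at h
  obtain ⟨a, -, ha⟩ := h
  split_ifs at ha
  · exact ha
  · exact absurd ha (C.ι_ns a j)

/-- the relation used for decoding -/
def R (γ : ℕ → ℕ → Bool) (q : List ℕ) (n m : ℕ) : Prop :=
  Sim χ χ (C.lam γ (n :: C.sub q m)) (C.c1 :: C.al)

theorem R_iso {γ γ' : ℕ → ℕ → Bool} (f : ℕ ≃ ℕ)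
    (hf : ∀ l, C.col γ' (l.map f) = C.col γ l) (q : List ℕ) (n m : ℕ) :
    C.R γ' (q.map f) (f n) (f m) ↔ C.R γ q n m := by
  unfold R
  rw [← C.iso_sim γ f hf, List.map_cons, C.sub_map]

theorem R_nb (γ : ℕ → ℕ → Bool) (n t : ℕ) :
    C.R γ C.q0 n (C.mt t) ↔ Sim χ χ (C.bet γ (C.nb t) n :: C.al) (C.c1 :: C.al) := by
  unfold R
  rw [C.sub_nb, C.lam_cons, C.nb_lam]

theorem R_code (γ : ℕ → ℕ → Bool) (j t : ℕ) :
    C.R γ C.q0 (C.sp j) (C.mt t) ↔ γ j t = true := by
  rw [C.R_nb]
  have hne : C.nb t ≠ [] := by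
    intro h
    have := C.nb_length t
    rw [h, List.length_nil] at this
    exact C.al_ne (List.length_eq_zero_iff.1 this.symm)
  obtain ⟨n0, l, hl⟩ := List.exists_cons_of_ne_nil hne
  have hlen : (n0 :: l).length = C.al.length := by rw [← hl, C.nb_length]
  have hn0 : C.sp j ≠ n0 := by
    intro h
    have h1 : n0 ∈ C.nb t := by rw [hl]; exact List.mem_cons_self ..
    unfold nb at h1
    rw [List.mem_map] at h1
    obtain ⟨a, -, ha⟩ := h1
    split_ifs at ha
    · exact C.mt_ns t j (ha.trans h.symm)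
    · exact C.ι_ns a j (ha.trans h.symm)
  have h1 := C.bet_code γ (n0 := n0) (l := l) (j := j) hn0 (fun h => by
    have := h.1
    rw [hlen] at this
    exact lt_irrefl _ this) ⟨t, hl.symm⟩
  rw [hl, h1]
  have h2 : (∃ t', n0 :: l = C.nb t' ∧ γ j t' = true) ↔ γ j t = true := by
    constructor
    · rintro ⟨t', ht', h⟩
      rw [← hl, ← C.sub_nb t] at ht'
      rw [C.mt_inj (C.nb_inj ht')]
      exact h
    · intro h
      exact ⟨t, hl.symm, h⟩
  simp only [h2]
  split_ifs with h
  · simp only [h, iff_true]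
    exact Sim.refl _ _
  · refine ⟨fun h' => absurd h'.symm C.hne, fun h' => absurd h' h⟩

theorem std_sp {i j n0 : ℕ} {t : List ℕ} (hi : C.sp i ≠ n0) (hj : C.sp j ≠ n0) :
    C.Std (C.sp i :: n0 :: t) ↔ C.Std (C.sp j :: n0 :: t) := by
  unfold Std
  rw [List.isChain_cons_cons, List.isChain_cons_cons, C.ν_sp, C.ν_sp]
  simp only [ne_eq, hi, hj, not_false_eq_true, true_imp_iff]

theorem twins (γ : ℕ → ℕ → Bool) {i j : ℕ} (l : List ℕ) (hl : l.length ≤ C.al.length)
    (hnb : ∀ t, l ≠ C.nb t) (hi : C.sp i ∉ l) (hj : C.sp j ∉ l) :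
    C.bet γ l (C.sp i) = C.bet γ l (C.sp j) := by
  induction hk : l.length using Nat.strong_induction_on generalizing l with
  | _ k ih =>
  subst hk
  cases l with
  | nil => rw [C.bet_nil, C.bet_nil, C.ν_sp, C.ν_sp]
  | cons n0 t =>
    have hi0 : C.sp i ≠ n0 := fun h => hi (by rw [h]; exact List.mem_cons_self ..)
    have hj0 : C.sp j ≠ n0 := fun h => hj (by rw [h]; exact List.mem_cons_self ..)
    by_cases hs : (n0 :: t).length < C.al.length ∧ C.Std (C.sp i :: n0 :: t)
    · rw [C.bet_std γ hi0 hs.1 hs.2, C.bet_std γ hj0 hs.1 ((C.std_sp hi0 hj0).1 hs.2),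
        C.ν_sp, C.ν_sp]
    · have hs' : ¬ ((n0 :: t).length < C.al.length ∧ C.Std (C.sp j :: n0 :: t)) :=
        fun h => hs ⟨h.1, (C.std_sp hi0 hj0).2 h.2⟩
      have hco : ¬ ∃ t', n0 :: t = C.nb t' := fun ⟨t', ht'⟩ => hnb t' ht'
      rw [C.bet_dflt γ hi0 hs hco, C.bet_dflt γ hj0 hs' hco]
      congr 1
      have hd : (n0 :: t).dropLast.length < (n0 :: t).length := by
        rw [List.length_dropLast]; simp
      refine ih _ hd _ (by omega) (fun t' ht' => ?_)
        (fun h => hi (List.mem_of_mem_dropLast h)) (fun h => hj (List.mem_of_mem_dropLast h)) rfl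
      have := C.nb_length t'
      rw [← ht'] at this
      omega

theorem R_twins (γ : ℕ → ℕ → Bool) {i j m : ℕ} (hm : ∀ t, m ≠ C.mt t) (hi : m ≠ C.sp i)
    (hj : m ≠ C.sp j) : C.R γ C.q0 (C.sp i) m ↔ C.R γ C.q0 (C.sp j) m := by
  unfold R
  rw [C.lam_cons, C.lam_cons, C.twins γ (i := i) (j := j) _ (by rw [sub_q0]; simp)
    (fun t ht => hm t (C.nb_inj ht)) (fun h => hi (C.mem_sub h)) (fun h => hj (C.mem_sub h))]

/-- the row of the first special element -/
noncomputable def ro (t : ℕ) : Bool :=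
  decide (¬ Sim χ χ (C.bet (fun _ _ => false) (C.nb t) t.unpair.1 :: C.al) (C.c1 :: C.al))

/-- the code of `x` -/
noncomputable def gm (x : ℕ → Bool) (j t : ℕ) : Bool :=
  match j with
  | 0 => C.ro t
  | j + 1 => xor (C.ro t) (decide (t < 6 * (j + 1) + if x j then 3 else 0))

/-- the set of the differences of two rows -/
def Dif (γ : ℕ → ℕ → Bool) (q : List ℕ) (n n' : ℕ) : Set ℕ := {m | ¬ (C.R γ q n m ↔ C.R γ q n' m)}

theorem dif_ns (x : ℕ → Bool) {n : ℕ} (hn : ¬ C.Sp n) :
    (C.Dif (C.gm x) C.q0 n (C.sp 0)).Infinite := by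
  refine Set.infinite_of_injective_forall_mem (f := fun i => C.mt (Nat.pair n i)) ?_ fun i => ?_
  · intro i i' h
    have := C.mt_inj h
    rw [Nat.pair_eq_pair] at this
    exact this.2
  · show ¬ _
    rw [C.R_code, C.R_nb]
    show ¬ (_ ↔ C.ro _ = true)
    unfold ro
    rw [decide_eq_true_iff, Nat.unpair_pair,
      C.bet_indep (C.gm x) (fun _ _ => false) (C.nb_length _).le hn]
    tauto

theorem dif_self (γ : ℕ → ℕ → Bool) (q : List ℕ) (n : ℕ) : C.Dif γ q n n = ∅ := by
  ext m
  simp [Dif]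

theorem dif_sp (x : ℕ → Bool) (j : ℕ) : ∃ F : Finset ℕ, (∀ m, m ∈ F ↔
    m ∈ C.Dif (C.gm x) C.q0 (C.sp (j + 1)) (C.sp 0)) ∧
    (6 * (j + 1) + if x j then 3 else 0) ≤ F.card ∧
    F.card ≤ (6 * (j + 1) + if x j then 3 else 0) + 2 := by
  set c := (6 * (j + 1) + if x j then 3 else 0) with hc
  set G := ({C.sp 0, C.sp (j + 1)} : Finset ℕ).filter
    fun m => m ∈ C.Dif (C.gm x) C.q0 (C.sp (j + 1)) (C.sp 0) with hG
  set H := (Finset.range c).image C.mt with hH
  have hHc : H.card = c := by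
    rw [hH, Finset.card_image_of_injective _ C.mt_inj, Finset.card_range]
  have hGc : G.card ≤ 2 := (Finset.card_filter_le _ _).trans (Finset.card_le_two)
  have hdis : Disjoint G H := by
    rw [Finset.disjoint_left]
    intro m hm hm'
    rw [hG, Finset.mem_filter, Finset.mem_insert, Finset.mem_singleton] at hm
    rw [hH, Finset.mem_image] at hm'
    obtain ⟨t, -, rfl⟩ := hm'
    rcases hm.1 with h | h
    · exact C.mt_ns _ _ h
    · exact C.mt_ns _ _ h
  refine ⟨G ∪ H, fun m => ?_, ?_, ?_⟩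
  · by_cases hm : ∃ t, m = C.mt t
    · obtain ⟨t, rfl⟩ := hm
      have h1 : C.mt t ∉ G := by
        rw [hG, Finset.mem_filter, Finset.mem_insert, Finset.mem_singleton]
        rintro ⟨h | h, -⟩
        · exact C.mt_ns _ _ h
        · exact C.mt_ns _ _ h
      have h2 : C.mt t ∈ H ↔ t < c := by
        rw [hH, Finset.mem_image]
        constructor
        · rintro ⟨t', ht', h⟩
          rw [← C.mt_inj h]
          exact Finset.mem_range.1 ht'
        · intro h
          exact ⟨t, Finset.mem_range.2 h, rfl⟩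
      rw [Finset.mem_union, h2]
      show _ ↔ ¬ _
      rw [C.R_code, C.R_code]
      have h3 : C.gm x (j + 1) t = xor (C.ro t) (decide (t < c)) := rfl
      have h4 : C.gm x 0 t = C.ro t := rfl
      rw [h3, h4]
      by_cases h : t < c
      · simp only [h, or_true, decide_true, true_iff]
        cases C.ro t <;> simp
      · simp only [h, or_false, decide_false]
        cases C.ro t <;> simp [h1]
    · push Not at hm
      have h1 : m ∉ H := by
        rw [hH, Finset.mem_image]
        rintro ⟨t, -, h⟩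
        exact hm t h.symm
      rw [Finset.mem_union, hG, Finset.mem_filter, Finset.mem_insert, Finset.mem_singleton]
      simp only [h1, or_false]
      refine ⟨fun h => h.2, fun h => ⟨?_, h⟩⟩
      by_contra hc
      push Not at hc
      exact h (C.R_twins _ hm hc.2 hc.1)
  · rw [Finset.card_union_of_disjoint hdis, hHc]
    omega
  · rw [Finset.card_union_of_disjoint hdis, hHc]
    omega

/-- decoding -/
noncomputable def J (q : List ℕ × ℕ) (x : ℕ → Bool) : ℕ → Bool := fun i =>
  decide (∃ (n : ℕ) (F : Finset ℕ), (6 * (i + 1) + 3 ≤ F.card ∧ F.card ≤ 6 * (i + 1) + 5) ∧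
    ∀ m, m ∈ F ↔ m ∈ C.Dif (C.gm x) q.1 n q.2)

theorem J_self (x : ℕ → Bool) : C.J (C.q0, C.sp 0) x = x := by
  funext i
  rw [Bool.eq_iff_iff]
  unfold J
  rw [decide_eq_true_iff]
  constructor
  · rintro ⟨n, F, ⟨hF1, hF2⟩, hF⟩
    by_cases hn : C.Sp n
    · obtain ⟨j, rfl⟩ := hn
      cases j with
      | zero =>
        exfalso
        have : F = ∅ := by
          ext m
          rw [hF, C.dif_self]
          simp
        rw [this, Finset.card_empty] at hF1
        omega
      | succ j =>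
        obtain ⟨F', hF', h1, h2⟩ := C.dif_sp x j
        have hFF : F = F' := by
          ext m
          rw [hF, hF']
        rw [← hFF] at h1 h2
        cases hx : x j with
        | true =>
          rw [hx] at h1 h2
          simp only [if_true] at h1 h2
          have : j = i := by omega
          rw [← this, hx]
        | false =>
          rw [hx] at h1 h2
          simp only [Bool.false_eq_true, if_false] at h1 h2
          omega
    · exfalso
      refine C.dif_ns x hn ?_
      refine (F.finite_toSet).subset fun m hm => ?_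
      exact Finset.mem_coe.2 ((hF m).2 hm)
  · intro hx
    obtain ⟨F, hF, h1, h2⟩ := C.dif_sp x i
    rw [hx] at h1 h2
    simp only [if_true] at h1 h2
    exact ⟨C.sp (i + 1), F, ⟨by omega, by omega⟩, hF⟩

theorem J_iso {x y : ℕ → Bool} (f : ℕ ≃ ℕ)
    (hf : ∀ l, C.col (C.gm y) (l.map f) = C.col (C.gm x) l) (q : List ℕ × ℕ) :
    C.J q x = C.J (q.1.map f, f q.2) y := by
  have hD : ∀ n m, f m ∈ C.Dif (C.gm y) (q.1.map f) (f n) (f q.2) ↔
      m ∈ C.Dif (C.gm x) q.1 n q.2 := by
    intro n m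
    show ¬ _ ↔ ¬ _
    rw [C.R_iso f hf, C.R_iso f hf]
  funext i
  rw [Bool.eq_iff_iff]
  unfold J
  rw [decide_eq_true_iff, decide_eq_true_iff]
  constructor
  · rintro ⟨n, F, hF, h⟩
    refine ⟨f n, F.map f.toEmbedding, by rwa [Finset.card_map], fun m => ?_⟩
    obtain ⟨m, rfl⟩ := f.surjective m
    rw [hD, ← h]
    simp
  · rintro ⟨n, F, hF, h⟩
    obtain ⟨n, rfl⟩ := f.surjective n
    refine ⟨n, F.map f.symm.toEmbedding, by rwa [Finset.card_map], fun m => ?_⟩
    rw [← hD, ← h]
    simp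

end Cfg

end Pool.Agent.H94.FL
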