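import Pool.Agent.H94.FL.Codes

set_option autoImplicit false

namespace Pool.Agent.H94.FL

open scoped Classical

variable {Γ : Type} {χ : List ℕ → Γ}

/-- the new element over a list with an element which is not a king is determined by its type over
the list without the oldest element -/
def Deg (χ : List ℕ → Γ) : Prop :=
  ∀ (al : List ℕ) (a0 : ℕ), a0 ∈ al → ¬ King χ a0 → ∀ c1 c2, al.head? ≠ some c1 →
    al.head? ≠ some c2 → Sim χ χ (c1 :: al.dropLast) (c2 :: al.dropLast) →
      Sim χ χ (c1 :: al) (c2 :: al)

theorem exists_cfg (h : ¬ Deg χ) : Nonempty (Cfg χ) := by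
  unfold Deg at h
  push Not at h
  obtain ⟨al, a0, ha0, hk, c1, c2, hc1, hc2, h12, hne⟩ := h
  have hkc : ¬ King χ c1 := by
    intro hk
    have := king_of_sim h12.head hk
    rw [this] at hne
    exact hne (Sim.refl _ _)
  let X := {p : (ℕ × ℕ) ⊕ ℕ // ∀ a t, p = Sum.inl (a, t) → King χ a → t = 0}
  have hinf : Infinite X := by
    refine Infinite.of_injective (fun j : ℕ => (⟨Sum.inr j, by simp⟩ : X)) ?_
    intro i j hij
    exact Sum.inr.inj (congrArg Subtype.val hij)
  obtain ⟨e⟩ : Nonempty (ℕ ≃ X) := nonempty_equiv_of_countable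
  let mk1 : ℕ → ℕ → X := fun a t => if h : King χ a → t = 0 then
    ⟨Sum.inl (a, t), by
      intro a' t' h' hk'
      have := Sum.inl.inj h'
      rw [Prod.mk.injEq] at this
      obtain ⟨rfl, rfl⟩ := this
      exact h hk'⟩ else ⟨Sum.inr 0, by simp⟩
  have hmk1 : ∀ a t, (King χ a → t = 0) → (mk1 a t).1 = Sum.inl (a, t) := by
    intro a t h
    show (dite _ _ _ : X).1 = _
    rw [dif_pos h]
  let mk2 : ℕ → X := fun j => ⟨Sum.inr j, by simp⟩
  let ν : ℕ → ℕ := fun n => Sum.elim (fun p : ℕ × ℕ => p.1) (fun _ => c1) (e n).1
  refine ⟨{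
    ν := ν
    sp := fun j => e.symm (mk2 j)
    mt := fun t => e.symm (mk1 a0 t)
    ι := fun a => e.symm (mk1 a 0)
    al := al
    a0 := a0
    c1 := c1
    c2 := c2
    sp_inj := ?_
    mt_inj := ?_
    ν_sp := ?_
    ν_mt := ?_
    ν_ι := ?_
    mt_ns := ?_
    ι_ns := ?_
    king := ?_
    inf := ?_
    ha0 := ha0
    nk := hk
    h12 := h12
    hne := hne
    hc1 := hc1
    hc2 := hc2 }⟩
  · intro i j hij
    exact Sum.inr.inj (congrArg Subtype.val (e.symm.injective hij))
  · intro i j hij
    have h1 := congrArg Subtype.val (e.symm.injective hij)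
    rw [hmk1 _ _ fun h => absurd h hk, hmk1 _ _ fun h => absurd h hk] at h1
    simpa using h1
  · intro j
    show Sum.elim _ _ (e (e.symm (mk2 j))).1 = c1
    rw [Equiv.apply_symm_apply]
    rfl
  · intro t
    show Sum.elim _ _ (e (e.symm (mk1 a0 t))).1 = a0
    rw [Equiv.apply_symm_apply, hmk1 _ _ fun h => absurd h hk]
    rfl
  · intro a
    show Sum.elim _ _ (e (e.symm (mk1 a 0))).1 = a
    rw [Equiv.apply_symm_apply, hmk1 _ _ fun _ => rfl]
    rfl
  · intro t j h
    have h1 := congrArg Subtype.val (e.symm.injective h)
    rw [hmk1 _ _ fun h => absurd h hk] at h1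
    exact absurd h1 (by simp [mk2])
  · intro a j h
    have h1 := congrArg Subtype.val (e.symm.injective h)
    rw [hmk1 _ _ fun _ => rfl] at h1
    exact absurd h1 (by simp [mk2])
  · intro n n' hkn hnn
    refine e.injective (Subtype.ext ?_)
    rcases h1 : (e n).1 with ⟨a, t⟩ | j
    · rcases h2 : (e n').1 with ⟨a', t'⟩ | j'
      · have e1 : ν n = a := by show Sum.elim _ _ (e n).1 = a; rw [h1]; rfl
        have e2 : ν n' = a' := by show Sum.elim _ _ (e n').1 = a'; rw [h2]; rfl
        rw [hnn, e2] at e1
        subst e1
        rw [hnn, e2] at hkn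
        rw [(e n).2 _ _ h1 hkn, (e n').2 _ _ h2 hkn]
      · exfalso
        have e2 : ν n' = c1 := by show Sum.elim _ _ (e n').1 = c1; rw [h2]; rfl
        rw [hnn, e2] at hkn
        exact hkc hkn
    · exfalso
      have e1 : ν n = c1 := by show Sum.elim _ _ (e n).1 = c1; rw [h1]; rfl
      rw [e1] at hkn
      exact hkc hkn
  · intro a ha
    refine Set.infinite_of_injective_forall_mem (f := fun t => e.symm (mk1 a t)) ?_ fun t => ?_
    · intro i j hij
      have h1 := congrArg Subtype.val (e.symm.injective hij)
      rw [hmk1 _ _ fun h => absurd h ha, hmk1 _ _ fun h => absurd h ha] at h1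
      simpa using h1
    · refine ⟨?_, fun j hj => ?_⟩
      · show Sum.elim _ _ (e (e.symm (mk1 a t))).1 = a
        rw [Equiv.apply_symm_apply, hmk1 _ _ fun h => absurd h ha]
        rfl
      · have h1 := congrArg Subtype.val (e.symm.injective hj)
        rw [hmk1 _ _ fun h => absurd h ha] at h1
        exact absurd h1 (by simp [mk2])

theorem deg_perm (hD : Deg χ) (σ : Equiv.Perm ℕ) (h1 : ∀ a, King χ a → σ a = a)
    (h2 : ∀ (a : ℕ) (κ : List ℕ), (∀ k ∈ κ, King χ k) → Sim χ χ (σ a :: κ) (a :: κ))
    (l : List ℕ) : Sim χ χ (l.map σ) l := by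
  induction hk : l.length using Nat.strong_induction_on generalizing l with
  | _ k ih =>
  subst hk
  cases l with
  | nil => exact Sim.refl _ _
  | cons a t =>
    by_cases ht : ∀ k ∈ t, King χ k
    · have e1 : t.map σ = t := by
        conv_rhs => rw [← List.map_id t]
        exact List.map_congr_left fun x hx => h1 x (ht x hx)
      rw [List.map_cons, e1]
      exact h2 a t ht
    · push Not at ht
      obtain ⟨z, hz, hzk⟩ := ht
      have htne : t ≠ [] := List.ne_nil_of_mem hz
      have iht := ih t.length (by simp) t rfl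
      have ihd := ih (a :: t).dropLast.length (by rw [List.length_dropLast]; simp) _ rfl
      rw [List.dropLast_cons_of_ne_nil htne, List.map_cons] at ihd
      rw [List.map_cons]
      -- t = x :: t'
      obtain ⟨x, t', rfl⟩ := List.exists_cons_of_ne_nil htne
      obtain ⟨b, hb⟩ := iht.back a
      by_cases hax : a = x
      · subst hax
        have h3 := hb.eqh
        rw [List.map_cons, eqh_cons_cons, eqh_cons_cons] at h3
        rw [h3.2 rfl] at hb
        exact hb
      · have hbx : b ≠ σ x := by
          intro h
          have h3 := hb.eqh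
          rw [List.map_cons, eqh_cons_cons, eqh_cons_cons] at h3
          exact hax (h3.1 h)
        have hσz : ¬ King χ (σ z) := by
          intro h
          have h4 : Sim χ χ [σ z] [z] := h2 z [] (by simp)
          exact hzk (king_of_sim h4 h ▸ h)
        refine (hD ((x :: t').map σ) (σ z) (List.mem_map_of_mem hz) hσz (σ a) b ?_ ?_ ?_).trans hb
        · rw [List.map_cons, List.head?_cons]
          exact fun h => hax (σ.injective (Option.some.inj h)).symm
        · rw [List.map_cons, List.head?_cons]
          exact fun h => hbx (Option.some.inj h).symm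
        · have h5 := hb.dropLast
          rw [List.dropLast_cons_of_ne_nil (by simp), List.dropLast_cons_of_ne_nil (by simp)] at h5
          rw [List.map_dropLast] at ihd
          exact ihd.trans h5.symm

/-- In the degenerate case the transpositions of points in the same orbit are automorphisms. -/
theorem deg_swap (hD : Deg χ) (f : Equiv.Perm ℕ) (hf : ∀ l, χ (l.map f) = χ l) (a : ℕ)
    (l : List ℕ) : χ (l.map (Equiv.swap a (f a))) = χ l := by
  have hs : ∀ l, Sim χ χ l (l.map f) := fun l => sim_of_iso f hf l
  have hfk : ∀ k, King χ k → f k = k := fun k hk => hk _ (hs [k]).symm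
  have hκ : ∀ κ : List ℕ, (∀ k ∈ κ, King χ k) → κ.map f = κ := by
    intro κ h
    conv_rhs => rw [← List.map_id κ]
    exact List.map_congr_left fun x hx => hfk x (h x hx)
  have key : Sim χ χ (l.map (Equiv.swap a (f a))) l := by
    refine deg_perm hD _ (fun k hk => ?_) (fun b κ h => ?_) l
    · by_cases hka : k = a
      · subst hka
        rw [Equiv.swap_apply_left]
        exact hfk k hk
      · by_cases hkf : k = f a
        · exfalso
          have h1 : King χ (f a) := hkf ▸ hk
          have h2 : a = f a := king_of_sim (hs [a]) (by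
            have : a = f a := h1 a (hs [a])
            rw [this]; exact h1)
          exact hka (hkf.trans h2.symm)
        · exact Equiv.swap_apply_of_ne_of_ne hka hkf
    · by_cases hba : b = a
      · subst hba
        rw [Equiv.swap_apply_left]
        have := hs (b :: κ)
        rw [List.map_cons, hκ κ h] at this
        exact this.symm
      · by_cases hbf : b = f a
        · rw [hbf, Equiv.swap_apply_right]
          have := hs (a :: κ)
          rw [List.map_cons, hκ κ h] at this
          exact this
        · rw [Equiv.swap_apply_of_ne_of_ne hba hbf]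
          exact Sim.refl _ _
  have h1 := key.color l.length
  rw [List.take_length, List.take_of_length_le (by simp)] at h1
  exact h1

end Pool.Agent.H94.FL
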