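import Pool.Agent.H94.FL.Deg
import Pool.Graph.R_pool_sql_team_seeded_620a6dc7.Results.MP_5df2c5_lc.NoFreeSubgroups

set_option autoImplicit false

namespace Pool.Agent.H94.FL

open scoped Classical
open Pool.Agent.H565R2.FO2 (Code Iso)

variable {L : FirstOrder.Language.{0, 0}}

/-- structures with unary predicates `P 0, P 1, ...` -/
abbrev ZZ (L : FirstOrder.Language.{0, 0}) : Type := Code L × (ℕ → ℕ → Bool)

def IsoZ (z z' : ZZ L) (σ : ℕ ≃ ℕ) : Prop :=
  (∀ n (R : L.Relations n) (t : Fin n → ℕ), z.1 ⟨n, R, t⟩ = z'.1 ⟨n, R, fun k => σ (t k)⟩) ∧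
    ∀ k a, z.2 k a = z'.2 k (σ a)

variable (e : ℕ → Option (Σ n, L.Relations n)) (s : (Σ n, L.Relations n) → ℕ)

def ar (i : ℕ) : ℕ := if i % 2 = 0 then 1 else (e (i / 2)).elim 1 fun p => p.1 + 1

theorem ar_pos (i : ℕ) : 0 < ar e i := by
  unfold ar
  split_ifs
  · exact Nat.one_pos
  · cases e (i / 2) with
    | none => exact Nat.one_pos
    | some p => exact Nat.succ_pos _

def val (z : ZZ L) (i : ℕ) (w : ℕ → ℕ) : Bool :=
  if i % 2 = 0 then z.2 (i / 2) (w 0)
  else (e (i / 2)).elim false fun p => z.1 ⟨p.1, p.2, fun j => w (j + 1)⟩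

def extv {n : ℕ} (v : Fin n → ℕ) (j : ℕ) : ℕ := if h : j < n then v ⟨j, h⟩ else 0

def enc (z : ZZ L) : Pool.Agent.Results.MP_5df2c5_lc.NoFreeSubgroups.Str (ar e) := fun i v => val e z i (extv v)

def dec (y : Pool.Agent.Results.MP_5df2c5_lc.NoFreeSubgroups.Str (ar e)) : ZZ L :=
  (fun p => y (2 * s ⟨p.1, p.2.1⟩ + 1) fun j => if (j : ℕ) = 0 then 0 else extv p.2.2 (j - 1),
    fun k a => y (2 * k) fun _ => a)

variable {e s}

theorem enc_odd (hs : ∀ p, e (s p) = some p) (z : ZZ L) (p : Σ n, L.Relations n)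
    (v : Fin (ar e (2 * s p + 1)) → ℕ) :
    enc e z (2 * s p + 1) v = z.1 ⟨p.1, p.2, fun j => extv v (j + 1)⟩ := by
  unfold enc val
  rw [if_neg (by omega), show (2 * s p + 1) / 2 = s p by omega, hs]
  rfl

theorem ar_odd (hs : ∀ p, e (s p) = some p) (p : Σ n, L.Relations n) :
    ar e (2 * s p + 1) = p.1 + 1 := by
  unfold ar
  rw [if_neg (by omega), show (2 * s p + 1) / 2 = s p by omega, hs]
  rfl

theorem ar_even (k : ℕ) : ar e (2 * k) = 1 := by
  unfold ar
  rw [if_pos (by omega)]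

theorem enc_even (z : ZZ L) (k : ℕ) (v : Fin (ar e (2 * k)) → ℕ) :
    enc e z (2 * k) v = z.2 k (extv v 0) := by
  unfold enc val
  rw [if_pos (by omega), show 2 * k / 2 = k by omega]

theorem dec_enc (hs : ∀ p, e (s p) = some p) (z : ZZ L) : dec e s (enc e z) = z := by
  refine Prod.ext ?_ ?_
  · funext ⟨n, R, t⟩
    show enc e z (2 * s ⟨n, R⟩ + 1) _ = _
    rw [enc_odd hs]
    refine congrArg (fun t => z.1 ⟨n, R, t⟩) (funext fun j => ?_)
    have hj : (j : ℕ) + 1 < ar e (2 * s ⟨n, R⟩ + 1) := by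
      rw [ar_odd hs]
      exact Nat.succ_lt_succ j.2
    show extv _ _ = _
    unfold extv
    rw [dif_pos hj]
    have hj2 := j.2
    dsimp only
    rw [if_neg (Nat.succ_ne_zero _), Nat.add_sub_cancel, dif_pos hj2]
  · funext k a
    show enc e z (2 * k) _ = _
    rw [enc_even]
    congr 1
    unfold extv
    rw [dif_pos (ar_pos e _)]

theorem extv_comp {n : ℕ} (σ : ℕ → ℕ) (v : Fin n → ℕ) {j : ℕ} (hj : j < n) :
    extv (σ ∘ v) j = σ (extv v j) := by
  unfold extv
  rw [dif_pos hj, dif_pos hj]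
  rfl

theorem enc_iso {z z' : ZZ L} {σ : ℕ ≃ ℕ} (h : IsoZ z z' σ) (i : ℕ) (v : Fin (ar e i) → ℕ) :
    enc e z' i (σ ∘ v) = enc e z i v := by
  unfold enc val
  have h0 : extv (⇑σ ∘ v) 0 = σ (extv v 0) := extv_comp _ _ (ar_pos e i)
  by_cases hi : i % 2 = 0
  · rw [if_pos hi, if_pos hi, h0, h.2]
  · rw [if_neg hi, if_neg hi]
    cases hp : e (i / 2) with
    | none => rfl
    | some p =>
      show z'.1 _ = z.1 _
      rw [h.1]
      refine congrArg (fun t => z'.1 ⟨p.1, p.2, t⟩) (funext fun j => ?_)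
      refine extv_comp _ _ ?_
      unfold ar
      rw [if_neg hi, hp]
      exact Nat.succ_lt_succ j.2

theorem iso_enc (hs : ∀ p, e (s p) = some p) {z z' : ZZ L} {σ : ℕ ≃ ℕ}
    (h : ∀ i (v : Fin (ar e i) → ℕ), enc e z' i (σ ∘ v) = enc e z i v) : IsoZ z z' σ := by
  constructor
  · intro n R t
    have h1 := h (2 * s ⟨n, R⟩ + 1) fun j => if (j : ℕ) = 0 then 0 else extv t (j - 1)
    rw [enc_odd hs, enc_odd hs] at h1
    have h2 : ∀ j : Fin n, extv (fun j : Fin (ar e (2 * s ⟨n, R⟩ + 1)) =>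
        if (j : ℕ) = 0 then 0 else extv t (j - 1)) (j + 1) = t j := by
      intro j
      have hj : (j : ℕ) + 1 < ar e (2 * s ⟨n, R⟩ + 1) := by
        rw [ar_odd hs]
        exact Nat.succ_lt_succ j.2
      unfold extv
      rw [dif_pos hj]
      dsimp only
      rw [if_neg (Nat.succ_ne_zero _), Nat.add_sub_cancel, dif_pos j.2]
    have h3 : ∀ j : Fin n, extv (⇑σ ∘ fun j : Fin (ar e (2 * s ⟨n, R⟩ + 1)) =>
        if (j : ℕ) = 0 then 0 else extv t (j - 1)) (j + 1) = σ (t j) := by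
      intro j
      rw [extv_comp _ _ (by rw [ar_odd hs]; exact Nat.succ_lt_succ j.2), h2 j]
    simp only [h2, h3] at h1
    exact h1.symm
  · intro k a
    have h1 := h (2 * k) fun _ => a
    rw [enc_even, enc_even, extv_comp _ _ (ar_pos e _)] at h1
    have h2 : extv (fun _ : Fin (ar e (2 * k)) => a) 0 = a := by
      unfold extv
      rw [dif_pos (ar_pos e _)]
    rw [h2] at h1
    exact h1.symm

/-- The image of a structure under a permutation. -/
def prm (σ : ℕ ≃ ℕ) (z : ZZ L) : ZZ L :=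
  (fun p => z.1 ⟨p.1, p.2.1, fun k => σ.symm (p.2.2 k)⟩, fun k a => z.2 k (σ.symm a))

theorem iso_prm (σ : ℕ ≃ ℕ) (z : ZZ L) : IsoZ z (prm σ z) σ := by
  refine ⟨fun n R t => ?_, fun k a => ?_⟩
  · show _ = z.1 _
    simp
  · show _ = z.2 _ _
    simp

theorem cont_enc : Continuous (enc e : ZZ L → _) := by
  refine continuous_pi fun i => continuous_pi fun v => ?_
  unfold enc val
  by_cases hi : i % 2 = 0
  · simp only [if_pos hi]
    exact (continuous_apply _).comp ((continuous_apply _).comp continuous_snd)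
  · simp only [if_neg hi]
    cases e (i / 2) with
    | none => exact continuous_const
    | some p => exact (continuous_apply _).comp continuous_fst

theorem cont_dec : Continuous (dec e s : _ → ZZ L) := by
  refine Continuous.prodMk (continuous_pi fun p => ?_) (continuous_pi fun k =>
    continuous_pi fun a => ?_)
  · exact (continuous_apply _).comp (continuous_apply (2 * s ⟨p.1, p.2.1⟩ + 1))
  · exact (continuous_apply _).comp (continuous_apply (2 * k))

/-- The dichotomy for rigid structures. -/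
theorem rigid_dich [Countable (Σ n, L.Relations n)] (B : Set (ZZ L)) (hB : MeasurableSet B)
    (hinv : ∀ z z' σ, IsoZ z z' σ → z ∈ B → z' ∈ B)
    (hrig : ∀ z ∈ B, ∀ σ, IsoZ z z σ → σ = 1) :
    (∃ f : ℕ → ZZ L, ∀ z ∈ B, ∃ n σ, IsoZ (f n) z σ) ∨
    (∃ g : (ℕ → Bool) → ZZ L, Continuous g ∧ (∀ c, g c ∈ B) ∧
      ∀ c d σ, IsoZ (g c) (g d) σ → c = d) := by
  haveI : ∀ n, Countable (L.Relations n) := fun n =>
    Function.Injective.countable (f := fun R : L.Relations n => (⟨n, R⟩ : Σ n, L.Relations n))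
      sigma_mk_injective
  obtain ⟨e, he⟩ := exists_surjective_nat (Option (Σ n, L.Relations n))
  choose s hs using fun p : (Σ n, L.Relations n) => he (some p)
  let B' : Set (Pool.Agent.Results.MP_5df2c5_lc.NoFreeSubgroups.Str (ar e)) := {y | enc e (dec e s y) = y ∧ dec e s y ∈ B}
  have hB' : MeasurableSet B' := by
    have h1 : IsClosed {y : Pool.Agent.Results.MP_5df2c5_lc.NoFreeSubgroups.Str (ar e) | enc e (dec e s y) = y} :=
      isClosed_eq (cont_enc.comp cont_dec) continuous_id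
    have h2 : MeasurableSet (dec e s ⁻¹' B) := cont_dec.measurable hB
    exact h1.measurableSet.inter h2
  have hmem : ∀ z ∈ B, enc e z ∈ B' := fun z hz => by
    refine ⟨?_, ?_⟩
    · rw [dec_enc hs]
    · rw [dec_enc hs]; exact hz
  have hi : ∀ y y', Pool.Agent.Results.MP_5df2c5_lc.NoFreeSubgroups.Iso y y' → y ∈ B' → y' ∈ B' := by
    rintro y y' ⟨σ, hσ⟩ ⟨h1, h2⟩
    have h3 : y' = enc e (prm σ (dec e s y)) := by
      funext i v
      have h4 : v = σ ∘ (σ.symm ∘ v) := by funext j; simp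
      rw [h4, hσ, enc_iso (iso_prm σ _), h1]
    rw [h3]
    exact hmem _ (hinv _ _ _ (iso_prm σ _) h2)
  have hsymm : ∀ y y' : Pool.Agent.Results.MP_5df2c5_lc.NoFreeSubgroups.Str (ar e), Pool.Agent.Results.MP_5df2c5_lc.NoFreeSubgroups.Iso y y' →
      Pool.Agent.Results.MP_5df2c5_lc.NoFreeSubgroups.Iso y' y := by
    rintro y y' ⟨σ, hσ⟩
    refine ⟨σ.symm, fun i v => ?_⟩
    rw [← hσ]
    congr 1
    funext j
    simp
  have hV := Pool.Agent.Results.MP_5df2c5_lc.NoFreeSubgroups.result (ar e) (ar_pos e) _ Pool.Agent.Results.MP_5df2c5_lc.NoFreeSubgroups.Small.base B' hB'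
    (fun y y' h => ⟨hi y y' h, hi y' y (hsymm y y' h)⟩) (by
      rintro y ⟨h1, h2⟩
      refine Or.inl ?_
      rintro ⟨φ, hφ1, hφ2⟩
      have h3 : ∀ w, φ w = 1 := by
        intro w
        refine hrig _ h2 _ (iso_enc hs fun i v => ?_)
        rw [h1]
        exact hφ2 w i v
      have h4 : FreeGroup.of (0 : Fin 2) = FreeGroup.of 1 := hφ1 (by rw [h3, h3])
      exact absurd (FreeGroup.of_injective h4) (by decide))
  rcases hV with ⟨f, hf⟩ | ⟨g, hg1, hg2, hg3⟩
  · left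
    refine ⟨fun n => dec e s (f n), fun z hz => ?_⟩
    obtain ⟨n, hn⟩ := hf _ (hmem z hz)
    have h1 := hi _ _ (hsymm _ _ hn) (hmem z hz)
    obtain ⟨σ, hσ⟩ := hn
    refine ⟨n, σ, iso_enc hs fun i v => ?_⟩
    rw [h1.1]
    exact hσ i v
  · right
    refine ⟨fun c => dec e s (g c), cont_dec.comp hg1, fun c => (hg2 c).2, fun c d σ h => ?_⟩
    refine hg3 c d ⟨σ, fun i v => ?_⟩
    have h1 := enc_iso (e := e) h i v
    rw [(hg2 c).1, (hg2 d).1] at h1
    exact h1

end Pool.Agent.H94.FL
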