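import Pool.Agent.H94.FL.Inv

set_option autoImplicit false

namespace Pool.Agent.H94.FL

open scoped Classical

variable {Γ : Type}

namespace Cfg

variable {χ : List ℕ → Γ} (C : Cfg χ) (γ : ℕ → ℕ → Bool)

theorem lam_take (l : List ℕ) (j : ℕ) : Sim χ χ (C.lam γ (l.take j)) ((C.lam γ l).take j) := by
  induction hn : l.length - j generalizing l with
  | zero =>
    rw [List.take_of_length_le (by omega), List.take_of_length_le (by rw [C.lam_length]; omega)]
    exact Sim.refl _ _
  | succ n ih =>
    have h1 := ih l.dropLast (by simp; omega)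
    have h2 := ((C.inv γ l).i1).take j
    have h3 := h1.trans h2
    have e1 : l.dropLast.take j = l.take j := by
      rw [List.dropLast_eq_take, List.take_take, Nat.min_eq_left (by omega)]
    have e2 : (C.lam γ l).dropLast.take j = (C.lam γ l).take j := by
      rw [List.dropLast_eq_take, List.take_take, C.lam_length, Nat.min_eq_left (by omega)]
    rw [e1, e2] at h3
    exact h3

theorem bet_one (l : List ℕ) (n : ℕ) : Sim χ χ [C.bet γ l n] [C.ν n] := by
  induction hk : l.length using Nat.strong_induction_on generalizing l with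
  | _ k ih =>
  by_cases hl : l = []
  · subst hl
    rw [C.bet_nil]
    exact Sim.refl _ _
  · have h1 := ((C.inv γ l).i2 hl n).head
    have hlen : 0 < l.length := List.length_pos_of_ne_nil hl
    exact h1.trans (ih l.dropLast.length (by rw [List.length_dropLast]; omega) _ rfl)

theorem rich (l : List ℕ) (a : ℕ) : ∃ n, Sim χ χ (C.bet γ l n :: C.lam γ l) (a :: C.lam γ l) := by
  by_cases h : (C.lam γ l).head? = some a
  · cases l with
    | nil => rw [C.lam_nil] at h; exact absurd h (by simp)
    | cons n0 t =>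
      refine ⟨n0, ?_⟩
      have h1 := (C.inv γ (n0 :: t)).i3 n0
      rw [h] at h1
      have h2 := h1.2 (by simp)
      rw [← Option.some.inj h2]
      exact Sim.refl _ _
  · by_cases hk : King χ a
    · refine ⟨C.ι a, ?_⟩
      have h1 := C.bet_one γ l (C.ι a)
      rw [C.ν_ι] at h1
      rw [hk _ h1]
      exact Sim.refl _ _
    · obtain ⟨n, -, -, hn⟩ := ((C.inv γ l).i4 a hk h).nonempty
      exact ⟨n, hn⟩

/-- the colours of the new structure -/
noncomputable def col (l : List ℕ) : Γ := χ (C.lam γ l)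

theorem eqh_lam (l : List ℕ) : eqh (C.lam γ l) ↔ eqh l := by
  match l with
  | [] => rw [C.lam_nil]
  | [a] => rw [C.lam_cons, C.lam_nil]; exact Iff.rfl
  | a :: b :: t =>
    rw [C.lam_cons, C.lam_cons, eqh_cons_cons, eqh_cons_cons]
    have h := (C.inv γ (b :: t)).i3 a
    rw [C.lam_cons, List.head?_cons, List.head?_cons, Option.some_inj, Option.some_inj] at h
    exact ⟨fun h' => (h.1 h'.symm).symm, fun h' => (h.2 h'.symm).symm⟩

theorem bis : Bis (C.col γ) χ fun l b => Sim χ χ (C.lam γ l) b := by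
  intro l b h
  refine ⟨⟨?_, fun j => ?_, ?_⟩, fun n => ?_, fun a => ?_⟩
  · rw [← h.length, C.lam_length]
  · rw [← h.color j]
    have h1 := (C.lam_take γ l j).color ((C.lam γ (l.take j)).length)
    rw [List.take_length] at h1
    rw [col, h1]
    congr 1
    rw [List.take_take, C.lam_length, List.length_take, Nat.min_assoc]
    rcases Nat.le_total j l.length with h2 | h2
    · rw [Nat.min_eq_left (by omega)]
    · rw [List.take_of_length_le (by rw [C.lam_length]; omega),
        List.take_of_length_le (by rw [C.lam_length]; omega)]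
  · rw [← C.eqh_lam γ l]
    exact h.eqh
  · obtain ⟨b', hb'⟩ := h.forth (C.bet γ l n)
    refine ⟨b', ?_⟩
    show Sim χ χ (C.lam γ (n :: l)) _
    rw [C.lam_cons]
    exact hb'
  · obtain ⟨a1, ha1⟩ := h.back a
    obtain ⟨n, hn⟩ := C.rich γ l a1
    refine ⟨n, ?_⟩
    show Sim χ χ (C.lam γ (n :: l)) _
    rw [C.lam_cons]
    exact hn.trans ha1

theorem sim_iff (l b : List ℕ) : Sim (C.col γ) χ l b ↔ Sim χ χ (C.lam γ l) b := by
  constructor
  · intro h
    have h1 : Sim (C.col γ) χ l (C.lam γ l) := ⟨_, C.bis γ, Sim.refl _ _⟩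
    exact h1.symm.trans h
  · intro h
    exact ⟨_, C.bis γ, h⟩

theorem iso_sim {γ' : ℕ → ℕ → Bool} (f : ℕ ≃ ℕ) (hf : ∀ l, C.col γ' (l.map f) = C.col γ l)
    (l b : List ℕ) : Sim χ χ (C.lam γ' (l.map f)) b ↔ Sim χ χ (C.lam γ l) b := by
  rw [← C.sim_iff, ← C.sim_iff]
  have h := sim_of_iso (χ := C.col γ) (χ' := C.col γ') f hf l
  exact ⟨fun h' => h.trans h', fun h' => h.symm.trans h'⟩

end Cfg

end Pool.Agent.H94.FL
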