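import Pool.Agent.H94.FL.Rigid
import Pool.Graph.R_seed8.H834V.Adapt

set_option autoImplicit false

namespace Pool.Agent.H94.FL

open scoped Classical
open Pool.Agent.H565R2.FO2 (Code Iso toI)
open Pool.Agent.H565R2.LO2 (PerfK)

/-- Infinitary fluted formulas in the variables `x 0, ..., x (k-1)`. -/
inductive Fluted (L : FirstOrder.Language.{0, 0}) : ℕ → Type
  /-- The atomic formula `R x (k-n) ... x (k-1)` with the last `n` variables. -/
  | rel {k n : ℕ} (h : n ≤ k) (R : L.Relations n) : Fluted L k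
  /-- The atomic formula `x k = x (k+1)` with the last two of the `k + 2` variables. -/
  | eq {k : ℕ} : Fluted L (k + 2)
  /-- Negation. -/
  | neg {k : ℕ} (φ : Fluted L k) : Fluted L k
  /-- Conjunction of the formulas `φ 0, φ 1, ...`. -/
  | inf {k : ℕ} (φ : ℕ → Fluted L k) : Fluted L k
  /-- The formula `∃ x k, φ`. -/
  | ex {k : ℕ} (φ : Fluted L (k + 1)) : Fluted L k

/-- The formula is true in the structure for the values `v 0, ..., v (k-1)` of the variables. -/
def Sat {L : FirstOrder.Language.{0, 0}} (S : (n : ℕ) → L.Relations n → (Fin n → ℕ) → Prop) :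
    {k : ℕ} → Fluted L k → (Fin k → ℕ) → Prop
  | k, .rel (n := n) h R, v => S n R fun i : Fin n => v ⟨k - n + i, by omega⟩
  | _, .eq (k := k), v => v ⟨k, by omega⟩ = v ⟨k + 1, by omega⟩
  | _, .neg φ, v => ¬ Sat S φ v
  | _, .inf φ, v => ∀ i, Sat S (φ i) v
  | _, .ex φ, v => ∃ a : ℕ, Sat S φ (Fin.snoc v a)

variable {L : FirstOrder.Language.{0, 0}}

theorem lt_snoc {k : ℕ} (v : Fin k → ℕ) (a : ℕ) :
    lt (Fin.snoc v a : Fin (k + 1) → ℕ) = a :: lt v := by
  unfold lt
  rw [List.ofFn_succ', List.concat_eq_append, List.reverse_append]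
  simp

theorem take_lt {k n : ℕ} (h : n ≤ k) (v : Fin k → ℕ) :
    (lt v).take n = lt fun i : Fin n => v ⟨k - n + i, by omega⟩ := by
  unfold lt
  refine List.ext_getElem (by simp; omega) fun i h1 h2 => ?_
  simp only [List.length_reverse, List.length_ofFn] at h2
  rw [List.getElem_take, List.getElem_reverse, List.getElem_reverse, List.getElem_ofFn,
    List.getElem_ofFn]
  congr 1
  simp only [List.length_ofFn, Fin.mk.injEq]
  omega

theorem sat_iff {c c' : Code L} {k : ℕ} (φ : Fluted L k) : ∀ v v' : Fin k → ℕ,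
    Sim (chi c) (chi c') (lt v) (lt v') → (Sat (toI c) φ v ↔ Sat (toI c') φ v') := by
  induction φ with
  | @rel k n h R =>
    intro v v' hs
    have h1 := hs.color n
    rw [take_lt h, take_lt h] at h1
    show c _ = true ↔ c' _ = true
    rw [← mem_chi_lt, ← mem_chi_lt, h1]
  | @eq k =>
    intro v v' hs
    have h1 := hs.eqh
    have h2 : ∀ v : Fin (k + 2) → ℕ, eqh (lt v) ↔ v ⟨k, by omega⟩ = v ⟨k + 1, by omega⟩ := by
      intro v
      have h3 : v = Fin.snoc (Fin.snoc (fun i : Fin k => v ⟨i, by omega⟩) (v ⟨k, by omega⟩))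
          (v ⟨k + 1, by omega⟩) := by
        funext i
        refine Fin.lastCases ?_ (fun j => ?_) i
        · rw [Fin.snoc_last]; rfl
        · rw [Fin.snoc_castSucc]
          refine Fin.lastCases ?_ (fun m => ?_) j
          · rw [Fin.snoc_last]; rfl
          · rw [Fin.snoc_castSucc]; rfl
      conv_lhs => rw [h3]
      rw [lt_snoc, lt_snoc, eqh_cons_cons, eq_comm]
    rw [h2, h2] at h1
    exact h1
  | neg φ ih =>
    intro v v' hs
    exact not_congr (ih v v' hs)
  | inf φ ih =>
    intro v v' hs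
    exact forall_congr' fun i => ih i v v' hs
  | ex φ ih =>
    intro v v' hs
    constructor
    · rintro ⟨a, ha⟩
      obtain ⟨a', ha'⟩ := hs.forth a
      rw [← lt_snoc, ← lt_snoc] at ha'
      exact ⟨a', (ih _ _ ha').1 ha⟩
    · rintro ⟨a', ha'⟩
      obtain ⟨a, ha⟩ := hs.back a'
      rw [← lt_snoc, ← lt_snoc] at ha
      exact ⟨a, (ih _ _ ha).2 ha'⟩

theorem meas_sat [∀ n, Countable (L.Relations n)] {k : ℕ} (φ : Fluted L k) : ∀ v : Fin k → ℕ,
    Measurable fun c : Code L => Sat (toI c) φ v := by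
  induction φ with
  | @rel k n h R =>
    intro v
    refine measurableSet_setOfPred.1 ?_
    have h1 : Measurable fun c : Code L =>
      c ⟨n, R, fun i : Fin n => v ⟨k - n + i, by omega⟩⟩ := measurable_pi_apply _
    exact h1 (measurableSet_singleton true)
  | @eq k =>
    intro v
    exact measurable_const
  | neg φ ih =>
    intro v
    exact (ih v).not
  | inf φ ih =>
    intro v
    exact Measurable.forall fun i => ih i v
  | ex φ ih =>
    intro v
    exact Measurable.exists fun a => ih _

/-- The dichotomy for fluted logic, for Borel classes closed under fluted equivalence. -/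
theorem main [Countable (Σ n, L.Relations n)] (K : Set (Code L)) (hK : MeasurableSet K)
    (hs : ∀ c c', Sim (chi c') (chi c) [] [] → c ∈ K → c' ∈ K) :
    (∃ g : ℕ → Code L, ∀ c ∈ K, ∃ n, Iso c (g n)) ∨ PerfK K := by
  haveI : ∀ n, Countable (L.Relations n) := fun n =>
    Function.Injective.countable (f := fun R : L.Relations n => (⟨n, R⟩ : Σ n, L.Relations n))
      sigma_mk_injective
  by_cases h : ∃ c ∈ K, ¬ Deg (chi c)
  · obtain ⟨c, hc, hd⟩ := h
    obtain ⟨C⟩ := exists_cfg hd
    exact Or.inr (perf_of_cfg C fun c' h => hs c c' h hc)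
  · push Not at h
    refine swap_dich K hK (fun c c' σ hσ hc => ?_) fun c hc σ hσ a => ?_
    · exact hs c c' (sim_of_iso σ (iso_chi σ hσ) []).symm hc
    · have h1 := deg_swap (h c hc) σ (iso_chi σ hσ) a
      exact fun n R t => chi_iso (Equiv.swap a (σ a)) h1 R t

end Pool.Agent.H94.FL
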