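import Pool.Agent.H94.FL.Build

set_option autoImplicit false

namespace Pool.Agent.H94.FL

open scoped Classical

variable {Γ : Type}

theorem exists_inj (W : ℕ → Set ℕ) (hW : ∀ k, (W k).Infinite) :
    ∃ ψ : ℕ → ℕ, Function.Injective ψ ∧ ∀ k, ψ k ∈ W k := by
  have h : ∀ k m, ∃ n ∈ W k, m < n := fun k m => (hW k).exists_gt m
  choose s hs1 hs2 using h
  let ψ : ℕ → ℕ := fun k => Nat.rec (s 0 0) (fun k x => s (k + 1) x) k
  refine ⟨ψ, (strictMono_nat_of_lt_succ fun k => ?_).injective, fun k => ?_⟩
  · exact hs2 (k + 1) (ψ k)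
  · cases k with
    | zero => exact hs1 0 0
    | succ k => exact hs1 (k + 1) (ψ k)

theorem king_of_sim {χ : List ℕ → Γ} {a b : ℕ} (h : Sim χ χ [a] [b]) (hk : King χ a) : a = b :=
  (hk b h.symm).symm

namespace Cfg

variable {χ : List ℕ → Γ} (C : Cfg χ) (γ : ℕ → ℕ → Bool)

theorem ns_inf (n0 : ℕ) : {n | ¬ C.Sp n ∧ n ≠ n0}.Infinite := by
  have h := (C.inf C.a0 C.nk).sdiff (Set.finite_singleton n0)
  refine h.mono ?_
  rintro n ⟨⟨-, hn⟩, hn0⟩
  exact ⟨fun ⟨j, hj⟩ => hn j hj, hn0⟩

theorem exists_part {p p' : List ℕ} {n0 : ℕ} {g : ℕ → ℕ}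
    (hc : ∀ n, n ≠ n0 → ∃ b', Cand χ p p' (g n) b')
    (hW : ∀ a, ¬ King χ a → p.head? ≠ some a →
      {n | ¬ C.Sp n ∧ n ≠ n0 ∧ Sim χ χ (a :: p.dropLast) (g n :: p')}.Infinite) :
    ∃ f, C.Part p p' n0 g f := by
  let v : ℕ → Prop := fun a => ¬ King χ a ∧ p.head? ≠ some a
  obtain ⟨ψ, hψ, hψW⟩ := exists_inj (fun k => {n | ¬ C.Sp n ∧ n ≠ n0 ∧
    (v k.unpair.1 → Sim χ χ (k.unpair.1 :: p.dropLast) (g n :: p'))}) (fun k => by
      by_cases h : v k.unpair.1
      · refine (hW _ h.1 h.2).mono ?_
        rintro n ⟨h1, h2, h3⟩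
        exact ⟨h1, h2, fun _ => h3⟩
      · refine (C.ns_inf n0).mono ?_
        rintro n ⟨h1, h2⟩
        exact ⟨h1, h2, fun h' => absurd h' h⟩)
  let f : ℕ → ℕ := fun n => if h : ∃ k, ψ k = n ∧ v k.unpair.1 then h.choose.unpair.1
    else dflt χ p p' (g n)
  have hf1 : ∀ k, v k.unpair.1 → f (ψ k) = k.unpair.1 := by
    intro k hk
    have h : ∃ k', ψ k' = ψ k ∧ v k'.unpair.1 := ⟨k, rfl, hk⟩
    have h2 : h.choose = k := hψ h.choose_spec.1
    show dite _ _ _ = _
    rw [dif_pos h, h2]
  refine ⟨f, fun n hn hn0 => ?_, fun a hk ha => ?_⟩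
  · by_cases h : ∃ k, ψ k = n ∧ v k.unpair.1
    · obtain ⟨k, rfl, hk⟩ := h
      rw [hf1 k hk]
      exact ⟨(hψW k).2.2 hk, hk.2⟩
    · show Cand χ p p' (g n) (dite _ _ _)
      rw [dif_neg h]
      exact dflt_spec (hc n hn0)
  · refine Set.infinite_of_injective_forall_mem (f := fun i => ψ (Nat.pair a i)) ?_ fun i => ?_
    · intro i i' h
      have := hψ h
      rw [Nat.pair_eq_pair] at this
      exact this.2
    · have hv : v (Nat.pair a i).unpair.1 := by
        rw [Nat.unpair_pair]
        exact ⟨hk, ha⟩
      have h1 := hψW (Nat.pair a i)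
      refine ⟨h1.1, h1.2.1, ?_⟩
      rw [hf1 _ hv, Nat.unpair_pair]
      exact Sim.refl _ _

theorem std_bet {l : List ℕ} : ∀ {n : ℕ}, C.Std (n :: l) → (n :: l).length ≤ C.al.length →
    C.bet γ l n = C.ν n := by
  induction l with
  | nil => intro n _ _; exact C.bet_nil γ n
  | cons n0 t ih =>
    intro n hs hl
    by_cases hn : n = n0
    · subst hn
      rw [C.bet_head]
      exact ih hs.tail (by simp only [List.length_cons] at hl ⊢; omega)
    · exact C.bet_std γ hn (by simp only [List.length_cons] at hl ⊢; omega) hs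

theorem std_lam {l : List ℕ} (hs : C.Std l) (hl : l.length ≤ C.al.length) :
    C.lam γ l = l.map C.ν := by
  induction l with
  | nil => exact C.lam_nil γ
  | cons n t ih =>
    rw [C.lam_cons, C.std_bet γ hs hl, ih hs.tail (by simp only [List.length_cons] at hl; omega),
      List.map_cons]

theorem nb_length (t : ℕ) : (C.nb t).length = C.al.length := by
  unfold nb
  simp

theorem nb_map (t : ℕ) : (C.nb t).map C.ν = C.al := by
  unfold nb
  rw [List.map_map]
  conv_rhs => rw [← List.map_id C.al]
  refine List.map_congr_left fun a _ => ?_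
  simp only [Function.comp, id]
  split_ifs with h
  · rw [C.ν_mt, h]
  · rw [C.ν_ι]

theorem nb_std (t : ℕ) : C.Std (C.nb t) := by
  unfold Std nb
  rw [List.isChain_map]
  have hT : ∀ l : List ℕ, l.IsChain fun _ _ => True := by
    intro l
    induction l with
    | nil => exact List.isChain_nil
    | cons a l ih => exact List.isChain_cons.2 ⟨fun _ _ => trivial, ih⟩
  refine List.IsChain.imp (R := fun _ _ => True) ?_ (hT _)
  intro a b _ h
  by_cases ha : a = C.a0 <;> by_cases hb : b = C.a0
  · simp [ha, hb] at h
  · simp only [ha, hb, if_true, if_false] at h ⊢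
    rw [C.ν_mt, C.ν_ι]
    exact Ne.symm hb
  · simp only [ha, hb, if_true, if_false] at h ⊢
    rw [C.ν_mt, C.ν_ι]
    exact ha
  · simp only [ha, hb, if_false] at h ⊢
    rw [C.ν_ι, C.ν_ι]
    rintro rfl
    exact h rfl

theorem nb_lam (t : ℕ) : C.lam γ (C.nb t) = C.al := by
  rw [C.std_lam γ (C.nb_std t) (C.nb_length t).le, nb_map]

/-- the invariants -/
structure Inv (l : List ℕ) : Prop where
  i1 : Sim χ χ (C.lam γ l.dropLast) (C.lam γ l).dropLast
  i2 : l ≠ [] → ∀ n, Sim χ χ (C.bet γ l n :: (C.lam γ l).dropLast)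
    (C.bet γ l.dropLast n :: C.lam γ l.dropLast)
  i3 : ∀ n, (C.lam γ l).head? = some (C.bet γ l n) ↔ l.head? = some n
  i4 : ∀ a, ¬ King χ a → (C.lam γ l).head? ≠ some a →
    {n | ¬ C.Sp n ∧ l.head? ≠ some n ∧
      Sim χ χ (C.bet γ l n :: C.lam γ l) (a :: C.lam γ l)}.Infinite

theorem inv_nil : C.Inv γ [] := by
  refine ⟨?_, fun h => absurd rfl h, fun n => ?_, fun a ha _ => ?_⟩
  · simp only [List.dropLast_nil, C.lam_nil]
    exact Sim.refl _ _
  · simp [C.lam_nil]
  · refine (C.inf a ha).mono ?_
    rintro n ⟨hn, hs⟩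
    refine ⟨fun ⟨j, hj⟩ => hs j hj, by simp, ?_⟩
    rw [C.lam_nil, C.bet_nil, hn]
    exact Sim.refl _ _

theorem inv (l : List ℕ) : C.Inv γ l := by
  induction hk : l.length using Nat.strong_induction_on generalizing l with
  | _ k ih =>
  cases l with
  | nil => exact C.inv_nil γ
  | cons n0 t =>
  have hd : (n0 :: t).dropLast.length < k := by
    rw [List.length_dropLast, ← hk]
    simp
  have iht : C.Inv γ t := ih t.length (by rw [← hk]; simp) t rfl
  have ihd : C.Inv γ (n0 :: t).dropLast := ih _ hd _ rfl
  set p := C.lam γ (n0 :: t) with hp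
  set p' := C.lam γ (n0 :: t).dropLast with hp'
  have hpc : p = C.bet γ t n0 :: C.lam γ t := C.lam_cons γ n0 t
  have hph : p.head? = some (C.bet γ t n0) := by rw [hpc]; rfl
  -- (i1)
  have h1 : Sim χ χ p' p.dropLast := by
    by_cases ht : t = []
    · rw [hp', hpc, ht]
      simp only [List.dropLast_singleton, C.lam_nil]
      exact Sim.refl _ _
    · rw [hp', hpc, List.dropLast_cons_of_ne_nil ht, C.lam_cons]
      rw [List.dropLast_cons_of_ne_nil (by
        intro h
        have := C.lam_length γ t
        rw [h, List.length_nil] at this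
        exact ht (List.length_eq_zero_iff.1 this.symm))]
      exact (iht.i2 ht n0).symm
  -- candidates
  have hcand : ∀ n, n ≠ n0 → ∃ b', Cand χ p p' (C.bet γ (n0 :: t).dropLast n) b' := by
    intro n hn
    by_cases ht : t = []
    · subst ht
      have e1 : p.dropLast = [] := by rw [hpc, C.lam_nil]; rfl
      have e2 : p' = [] := by rw [hp']; exact C.lam_nil γ
      have e3 : C.bet γ ([n0] : List ℕ).dropLast n = C.ν n := C.bet_nil γ n
      have e4 : C.bet γ [] n0 = C.ν n0 := C.bet_nil γ n0
      rw [e3]
      unfold Cand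
      rw [hph, e1, e2, e4]
      by_cases h : C.ν n = C.ν n0
      · have hk : ¬ King χ (C.ν n0) := fun hk => hn (C.king n n0 (h ▸ hk) h)
        unfold King at hk
        push Not at hk
        obtain ⟨b, hb1, hb2⟩ := hk
        refine ⟨b, ?_, fun he => hb2 (Option.some.inj he).symm⟩
        rw [h]
        exact hb1
      · exact ⟨C.ν n, Sim.refl _ _, fun he => h (Option.some.inj he).symm⟩
    · obtain ⟨b', hb'⟩ := h1.forth (C.bet γ (n0 :: t).dropLast n)
      refine ⟨b', hb'.symm, ?_⟩
      intro hh
      have e1 : (n0 :: t).dropLast = n0 :: t.dropLast := List.dropLast_cons_of_ne_nil ht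
      have e2 : p' = C.bet γ t.dropLast n0 :: C.lam γ t.dropLast := by
        rw [hp', e1, C.lam_cons]
      have e3 : p.dropLast = C.bet γ t n0 :: (C.lam γ t).dropLast := by
        rw [hpc, List.dropLast_cons_of_ne_nil]
        intro h
        have := C.lam_length γ t
        rw [h, List.length_nil] at this
        exact ht (List.length_eq_zero_iff.1 this.symm)
      have h4 := hb'.eqh
      rw [e2, e3, eqh_cons_cons, eqh_cons_cons] at h4
      rw [hph] at hh
      have h5 := h4.2 (Option.some.inj hh).symm
      have h6 := (ihd.i3 n).1 (by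
        show p'.head? = _
        rw [e2, h5]; rfl)
      rw [e1, List.head?_cons] at h6
      exact hn (Option.some.inj h6).symm
  have hW : ∀ a, ¬ King χ a → p.head? ≠ some a →
      {n | ¬ C.Sp n ∧ n ≠ n0 ∧ Sim χ χ (a :: p.dropLast)
        (C.bet γ (n0 :: t).dropLast n :: p')}.Infinite := by
    intro a ha hpa
    by_cases ht : t = []
    · subst ht
      have e1 : p.dropLast = [] := by rw [hpc, C.lam_nil]; rfl
      have e2 : p' = [] := by rw [hp']; exact C.lam_nil γ
      refine ((C.inf a ha).sdiff (Set.finite_singleton n0)).mono ?_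
      rintro n ⟨⟨hn1, hn2⟩, hn3⟩
      refine ⟨fun ⟨j, hj⟩ => hn2 j hj, hn3, ?_⟩
      have e3 : C.bet γ ([n0] : List ℕ).dropLast n = C.ν n := C.bet_nil γ n
      rw [e1, e2, e3, hn1]
      exact Sim.refl _ _
    · obtain ⟨a', ha'⟩ := h1.back a
      have e1 : (n0 :: t).dropLast = n0 :: t.dropLast := List.dropLast_cons_of_ne_nil ht
      have e2 : p' = C.bet γ t.dropLast n0 :: C.lam γ t.dropLast := by
        rw [hp', e1, C.lam_cons]
      have e3 : p.dropLast = C.bet γ t n0 :: (C.lam γ t).dropLast := by
        rw [hpc, List.dropLast_cons_of_ne_nil]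
        intro h
        have := C.lam_length γ t
        rw [h, List.length_nil] at this
        exact ht (List.length_eq_zero_iff.1 this.symm)
      have hka : ¬ King χ a' := by
        intro hk
        have := king_of_sim ha'.head hk
        exact ha (this ▸ hk)
      have hne : p'.head? ≠ some a' := by
        intro h
        have h4 := ha'.eqh
        rw [e2, e3, eqh_cons_cons, eqh_cons_cons] at h4
        rw [e2, List.head?_cons] at h
        have h5 := h4.1 (Option.some.inj h).symm
        exact hpa (by rw [hph, h5])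
      refine ((ihd.i4 a' hka hne)).mono ?_
      rintro n ⟨hn1, hn2, hn3⟩
      refine ⟨hn1, ?_, (hn3.trans ha').symm⟩
      rintro rfl
      rw [e1] at hn2
      exact hn2 rfl
  have hg : ∀ n, ¬ C.Sp n → C.bet γ (n0 :: t).dropLast n = (C.F γ (n0 :: t).dropLast).1 n :=
    fun n hn => C.val_ns _ hn
  -- the part of the ordinary elements
  have hPart : C.Part p p' n0 (C.F γ (n0 :: t).dropLast).1
      (C.part p p' n0 (C.F γ (n0 :: t).dropLast).1) := by
    refine C.part_spec ?_
    obtain ⟨f, hf1, hf2⟩ := C.exists_part hcand hW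
    refine ⟨f, fun n hn hn0 => ?_, hf2⟩
    rw [← hg n hn]
    exact hf1 n hn hn0
  -- values at elements different from n0 are candidates
  have hC : ∀ n, n ≠ n0 → Cand χ p p' (C.bet γ (n0 :: t).dropLast n) (C.bet γ (n0 :: t) n) := by
    intro n hn
    by_cases hs : (n0 :: t).length < C.al.length ∧ C.Std (n :: n0 :: t)
    · rw [C.bet_std γ hn hs.1 hs.2]
      have hst : C.Std (n0 :: t) := hs.2.tail
      have e1 : p = (n0 :: t).map C.ν := C.std_lam γ hst hs.1.le
      have e2 : p' = ((n0 :: t).dropLast).map C.ν :=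
        C.std_lam γ hst.dropLast (by rw [List.length_dropLast]; omega)
      have e3 : C.bet γ (n0 :: t).dropLast n = C.ν n := by
        refine C.std_bet γ ?_ (by
          rw [List.length_cons, List.length_dropLast]
          simp only [List.length_cons] at hs ⊢
          omega)
        have := hs.2.dropLast
        rw [List.dropLast_cons_of_ne_nil (by simp)] at this
        exact this
      refine ⟨?_, ?_⟩
      · rw [e3, e1, e2, List.map_dropLast]
        exact Sim.refl _ _
      · rw [e1]
        intro h
        have h2 := Option.some.inj h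
        have h3 := (List.isChain_cons.1 hs.2).1 n0 (by simp) hn
        exact h3 h2.symm
    · by_cases hsp : C.Sp n
      · obtain ⟨j, rfl⟩ := hsp
        by_cases hco : ∃ i, n0 :: t = C.nb i
        · rw [C.bet_code γ hn hs hco]
          obtain ⟨i, hi⟩ := hco
          have e1 : p = C.al := by rw [hp, hi, C.nb_lam]
          have e2 : p' = C.al.dropLast := by
            rw [hp', hi, C.std_lam γ (C.nb_std i).dropLast (by
              rw [List.length_dropLast, C.nb_length]; omega), List.map_dropLast, C.nb_map]
          have hne : ∀ b, (b = C.c1 ∨ b = C.c2) → p.head? ≠ some b := by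
            rintro b (rfl | rfl)
            · rw [e1]; exact C.hc1
            · rw [e1]; exact C.hc2
          have e3 : C.bet γ (n0 :: t).dropLast (C.sp j) = C.c1 := by
            rw [← C.ν_sp j]
            refine C.std_bet γ ?_ ?_
            · by_cases ht : t = []
              · subst ht
                exact List.isChain_singleton _
              · rw [List.dropLast_cons_of_ne_nil ht]
                refine List.isChain_cons_cons.2 ⟨fun _ => ?_, ?_⟩
                · rw [C.ν_sp]
                  intro h
                  have h1 := C.hc1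
                  rw [← C.nb_map i, ← hi, List.map_cons, List.head?_cons, ← h] at h1
                  exact h1 rfl
                · have := (C.nb_std i).dropLast
                  rw [← hi, List.dropLast_cons_of_ne_nil ht] at this
                  exact this
            · have := C.nb_length i
              rw [← hi] at this
              rw [List.length_cons, List.length_dropLast, this]
              rw [List.length_cons] at this
              omega
          refine ⟨?_, hne _ ?_⟩
          · rw [e1, e2, e3]
            split_ifs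
            · exact Sim.refl _ _
            · exact C.h12.symm
          · split_ifs
            · exact Or.inl rfl
            · exact Or.inr rfl
        · rw [C.bet_dflt γ hn hs hco]
          exact dflt_spec (hcand _ hn)
      · rw [C.bet_part γ hn hs hsp, hg n hsp]
        exact hPart.1 n hsp hn
  -- the value at n0
  have h0 : C.bet γ (n0 :: t) n0 = C.bet γ t n0 := C.bet_head γ n0 t
  refine ⟨h1, fun _ n => ?_, fun n => ?_, fun a ha hpa => ?_⟩
  · by_cases hn : n = n0
    · subst hn
      rw [h0]
      by_cases ht : t = []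
      · subst ht
        have e1 : p.dropLast = [] := by rw [hpc, C.lam_nil]; rfl
        have e2 : p' = [] := by rw [hp']; exact C.lam_nil γ
        have e3 : C.bet γ ([n] : List ℕ).dropLast n = C.ν n := C.bet_nil γ n
        rw [e1, ← hp', e2, e3, C.bet_nil]
        exact Sim.refl _ _
      · have e1 : (n :: t).dropLast = n :: t.dropLast := List.dropLast_cons_of_ne_nil ht
        have e2 : p' = C.bet γ t.dropLast n :: C.lam γ t.dropLast := by
          rw [hp', e1, C.lam_cons]
        have e3 : p.dropLast = C.bet γ t n :: (C.lam γ t).dropLast := by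
          rw [hpc, List.dropLast_cons_of_ne_nil]
          intro h
          have := C.lam_length γ t
          rw [h, List.length_nil] at this
          exact ht (List.length_eq_zero_iff.1 this.symm)
        have h5 : C.bet γ (n :: t).dropLast n = C.bet γ t.dropLast n := by
          rw [e1, C.bet_head]
        rw [h5]
        obtain ⟨b, hb⟩ := h1.forth (C.bet γ t.dropLast n)
        have h4 := hb.eqh
        rw [e2, e3, eqh_cons_cons, eqh_cons_cons] at h4
        have h6 := h4.1 rfl
        rw [h6] at hb
        exact hb.symm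
    · exact (hC n hn).1
  · rw [List.head?_cons]
    by_cases hn : n = n0
    · subst hn
      rw [h0]
      exact ⟨fun _ => rfl, fun _ => hph⟩
    · refine ⟨fun h => absurd h (hC n hn).2, fun h => absurd (Option.some.inj h).symm hn⟩
  · by_cases hs : (n0 :: t).length < C.al.length ∧ C.Std (n0 :: t)
    · have e1 : p = (n0 :: t).map C.ν := C.std_lam γ hs.2 hs.1.le
      have hνa : C.ν n0 ≠ a := by
        intro h
        rw [← hp, e1, List.map_cons, List.head?_cons, h] at hpa
        exact hpa rfl
      refine (C.inf a ha).mono ?_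
      rintro n ⟨hn1, hn2⟩
      have hn : n ≠ n0 := by
        rintro rfl
        exact hνa hn1
      refine ⟨fun ⟨j, hj⟩ => hn2 j hj, ?_, ?_⟩
      · rw [List.head?_cons]
        exact fun h => hn (Option.some.inj h).symm
      · rw [C.bet_std γ hn hs.1 (List.isChain_cons_cons.2 ⟨fun _ => by
          rw [hn1]; exact Ne.symm hνa, hs.2⟩), hn1]
        exact Sim.refl _ _
    · refine (hPart.2 a ha hpa).mono ?_
      rintro n ⟨hn1, hn2, hn3⟩
      refine ⟨hn1, ?_, ?_⟩
      · rw [List.head?_cons]
        exact fun h => hn2 (Option.some.inj h).symm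
      · rw [C.bet_part γ hn2 (fun h => hs ⟨h.1, h.2.tail⟩) hn1]
        exact hn3

end Cfg

end Pool.Agent.H94.FL
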