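import Pool.Agent.H94.FL.Decode
import Pool.Graph.R_seed8.H834V.Adapt

set_option autoImplicit false

namespace Pool.Agent.H94.FL

open scoped Classical

namespace Cfg

variable {Γ : Type} {χ : List ℕ → Γ} (C : Cfg χ)

theorem lc_gm (j t : ℕ) : IsLocallyConstant fun x : ℕ → Bool => C.gm x j t := by
  cases j with
  | zero => exact IsLocallyConstant.const _
  | succ j =>
    have h : IsLocallyConstant fun x : ℕ → Bool => x j :=
      (IsLocallyConstant.iff_continuous _).2 (continuous_apply j)
    exact h.comp fun b => xor (C.ro t) (decide (t < 6 * (j + 1) + if b then 3 else 0))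

theorem lc_ex (l : List ℕ) (j : ℕ) :
    IsLocallyConstant fun x : ℕ → Bool => ∃ t, l = C.nb t ∧ C.gm x j t = true := by
  by_cases h : ∃ t, l = C.nb t
  · obtain ⟨t, ht⟩ := h
    have h1 : (fun x : ℕ → Bool => ∃ t, l = C.nb t ∧ C.gm x j t = true) =
        fun x => (fun b : Bool => b = true) (C.gm x j t) := by
      funext x
      refine propext ⟨?_, fun h => ⟨t, ht, h⟩⟩
      rintro ⟨t', ht', h⟩
      rw [ht, ← C.sub_nb t] at ht'
      show C.gm x j t = true
      rw [C.mt_inj (C.nb_inj ht')]
      exact h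
    rw [h1]
    exact (C.lc_gm j t).comp (fun b : Bool => b = true)
  · have h1 : (fun x : ℕ → Bool => ∃ t, l = C.nb t ∧ C.gm x j t = true) = fun _ => False := by
      funext x
      refine propext ⟨?_, False.elim⟩
      rintro ⟨t, ht, -⟩
      exact h ⟨t, ht⟩
    rw [h1]
    exact IsLocallyConstant.const _

theorem lc_F (l : List ℕ) : IsLocallyConstant (fun x : ℕ → Bool => (C.F (C.gm x) l).1) ∧
    (∀ j, IsLocallyConstant fun x : ℕ → Bool => (C.F (C.gm x) l).2.1 j) ∧
    IsLocallyConstant (fun x : ℕ → Bool => (C.F (C.gm x) l).2.2) := by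
  induction hk : l.length using Nat.strong_induction_on generalizing l with
  | _ k ih =>
  subst hk
  cases l with
  | nil =>
    simp only [F]
    exact ⟨IsLocallyConstant.const _, fun _ => IsLocallyConstant.const _,
      IsLocallyConstant.const _⟩
  | cons n0 t =>
    obtain ⟨t1, t2, t3⟩ := ih t.length (by simp) t rfl
    obtain ⟨d1, d2, d3⟩ := ih (n0 :: t).dropLast.length (by rw [List.length_dropLast]; simp) _ rfl
    have hv : IsLocallyConstant fun x : ℕ → Bool => C.val (C.F (C.gm x) t) n0 := by
      by_cases h : C.Sp n0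
      · obtain ⟨j, rfl⟩ := h
        simp only [val_sp]
        exact t2 j
      · simp only [C.val_ns _ h]
        exact t1.comp fun f => f n0
    have hp : IsLocallyConstant fun x : ℕ → Bool =>
        C.val (C.F (C.gm x) t) n0 :: (C.F (C.gm x) t).2.2 := hv.comp₂ t3 fun a b => a :: b
    refine ⟨?_, fun j => ?_, ?_⟩
    · have h := (hv.prodMk hp).prodMk (d3.prodMk d1)
      have h1 := h.comp fun z : (ℕ × List ℕ) × (List ℕ × (ℕ → ℕ)) =>
        C.stepB (n0 :: t) n0 z.1.1 z.1.2 z.2.1 z.2.2
      have h2 : (fun x : ℕ → Bool => (C.F (C.gm x) (n0 :: t)).1) =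
          (fun z : (ℕ × List ℕ) × (List ℕ × (ℕ → ℕ)) =>
            C.stepB (n0 :: t) n0 z.1.1 z.1.2 z.2.1 z.2.2) ∘ fun x =>
          ((C.val (C.F (C.gm x) t) n0, C.val (C.F (C.gm x) t) n0 :: (C.F (C.gm x) t).2.2),
            ((C.F (C.gm x) (n0 :: t).dropLast).2.2, (C.F (C.gm x) (n0 :: t).dropLast).1)) := by
        funext x
        conv_lhs => rw [F]
        rfl
      rw [h2]
      exact h1
    · have h := (hv.prodMk hp).prodMk ((d3.prodMk (d2 j)).prodMk (C.lc_ex (n0 :: t) j))
      have h1 := h.comp fun z : (ℕ × List ℕ) × ((List ℕ × ℕ) × Prop) =>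
        if C.sp j = n0 then z.1.1
        else if (n0 :: t).length < C.al.length ∧ C.Std (C.sp j :: n0 :: t) then C.c1
        else if ∃ i, n0 :: t = C.nb i then (if z.2.2 then C.c1 else C.c2)
        else dflt χ z.1.2 z.2.1.1 z.2.1.2
      have h2 : (fun x : ℕ → Bool => (C.F (C.gm x) (n0 :: t)).2.1 j) =
          (fun z : (ℕ × List ℕ) × ((List ℕ × ℕ) × Prop) =>
            if C.sp j = n0 then z.1.1
            else if (n0 :: t).length < C.al.length ∧ C.Std (C.sp j :: n0 :: t) then C.c1
            else if ∃ i, n0 :: t = C.nb i then (if z.2.2 then C.c1 else C.c2)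
            else dflt χ z.1.2 z.2.1.1 z.2.1.2) ∘ fun x =>
          ((C.val (C.F (C.gm x) t) n0, C.val (C.F (C.gm x) t) n0 :: (C.F (C.gm x) t).2.2),
            (((C.F (C.gm x) (n0 :: t).dropLast).2.2, (C.F (C.gm x) (n0 :: t).dropLast).2.1 j),
              (∃ i, n0 :: t = C.nb i ∧ C.gm x j i = true))) := by
        funext x
        conv_lhs => rw [F]
        rfl
      rw [h2]
      exact h1
    · have h2 : (fun x : ℕ → Bool => (C.F (C.gm x) (n0 :: t)).2.2) = fun x =>
          C.val (C.F (C.gm x) t) n0 :: (C.F (C.gm x) t).2.2 := by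
        funext x
        conv_lhs => rw [F]
      rw [h2]
      exact hp

theorem lc_lam (l : List ℕ) : IsLocallyConstant fun x : ℕ → Bool => C.lam (C.gm x) l :=
  (C.lc_F l).2.2

theorem meas_R (q : List ℕ) (n m : ℕ) : Measurable fun x : ℕ → Bool => C.R (C.gm x) q n m := by
  refine measurable_to_prop ?_
  exact (((C.lc_lam (n :: C.sub q m)).comp fun l => Sim χ χ l (C.c1 :: C.al)) {True}).measurableSet

theorem meas_J (q : List ℕ × ℕ) : Measurable (C.J q) := by
  refine measurable_pi_lambda _ fun i => ?_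
  unfold J
  refine (Measurable.of_discrete (f := fun p : Prop => decide p)).comp ?_
  refine Measurable.exists fun n => Measurable.exists fun F => ?_
  refine (Measurable.and measurable_const ?_)
  refine Measurable.forall fun m => ?_
  refine Measurable.iff measurable_const ?_
  exact Measurable.not (Measurable.iff (C.meas_R _ _ _) (C.meas_R _ _ _))

end Cfg

end Pool.Agent.H94.FL
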