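import Mathlib

/-!
Back-and-forth equivalence for fluted logic with equality. A structure is given by the colours `χ l`
of the lists `l` of elements; the newest element of the list is its head.
-/

set_option autoImplicit false

namespace Pool.Agent.H94.FL

variable {U V W Γ : Type}

/-- the first two entries of the list exist and are equal -/
def eqh : List U → Prop
  | a :: b :: _ => a = b
  | _ => False

theorem eqh_cons_cons (a b : U) (l : List U) : eqh (a :: b :: l) ↔ a = b := Iff.rfl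

theorem eqh_cons {a : U} {l : List U} : eqh (a :: l) ↔ l.head? = some a := by
  cases l with
  | nil => simp [eqh]
  | cons b t => simp [eqh, eq_comm]

/-- back-and-forth system -/
def Bis (χ : List U → Γ) (χ' : List V → Γ) (Z : List U → List V → Prop) : Prop :=
  ∀ l l', Z l l' → (l.length = l'.length ∧ (∀ j, χ (l.take j) = χ' (l'.take j)) ∧
    (eqh l ↔ eqh l')) ∧
    (∀ a, ∃ a', Z (a :: l) (a' :: l')) ∧ (∀ a', ∃ a, Z (a :: l) (a' :: l'))

/-- fluted equivalence of two lists of elements -/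
def Sim (χ : List U → Γ) (χ' : List V → Γ) (l : List U) (l' : List V) : Prop :=
  ∃ Z, Bis χ χ' Z ∧ Z l l'

theorem sim_bis (χ : List U → Γ) (χ' : List V → Γ) : Bis χ χ' (Sim χ χ') := by
  rintro l l' ⟨Z, hZ, h⟩
  obtain ⟨h1, h2, h3⟩ := hZ l l' h
  refine ⟨h1, fun a => ?_, fun a' => ?_⟩
  · obtain ⟨a', ha⟩ := h2 a
    exact ⟨a', Z, hZ, ha⟩
  · obtain ⟨a, ha⟩ := h3 a'
    exact ⟨a, Z, hZ, ha⟩

variable {χ : List U → Γ} {χ' : List V → Γ} {χ'' : List W → Γ}

theorem Sim.length {l : List U} {l' : List V} (h : Sim χ χ' l l') : l.length = l'.length :=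
  (sim_bis χ χ' l l' h).1.1

theorem Sim.color {l : List U} {l' : List V} (h : Sim χ χ' l l') (j : ℕ) :
    χ (l.take j) = χ' (l'.take j) :=
  (sim_bis χ χ' l l' h).1.2.1 j

theorem Sim.eqh {l : List U} {l' : List V} (h : Sim χ χ' l l') : eqh l ↔ FL.eqh l' :=
  (sim_bis χ χ' l l' h).1.2.2

theorem Sim.forth {l : List U} {l' : List V} (h : Sim χ χ' l l') (a : U) :
    ∃ a', Sim χ χ' (a :: l) (a' :: l') :=
  (sim_bis χ χ' l l' h).2.1 a

theorem Sim.back {l : List U} {l' : List V} (h : Sim χ χ' l l') (a' : V) :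
    ∃ a, Sim χ χ' (a :: l) (a' :: l') :=
  (sim_bis χ χ' l l' h).2.2 a'

theorem Sim.refl (χ : List U → Γ) (l : List U) : Sim χ χ l l := by
  refine ⟨Eq, ?_, rfl⟩
  rintro l _ rfl
  exact ⟨⟨rfl, fun _ => rfl, Iff.rfl⟩, fun a => ⟨a, rfl⟩, fun a => ⟨a, rfl⟩⟩

theorem Sim.symm {l : List U} {l' : List V} (h : Sim χ χ' l l') : Sim χ' χ l' l := by
  refine ⟨fun l' l => Sim χ χ' l l', ?_, h⟩
  intro l' l h
  obtain ⟨⟨h0, h1, h2⟩, h3, h4⟩ := sim_bis χ χ' l l' h
  exact ⟨⟨h0.symm, fun j => (h1 j).symm, h2.symm⟩, h4, h3⟩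

theorem Sim.trans {l : List U} {l' : List V} {l'' : List W} (h : Sim χ χ' l l')
    (h' : Sim χ' χ'' l' l'') : Sim χ χ'' l l'' := by
  refine ⟨fun l l'' => ∃ l', Sim χ χ' l l' ∧ Sim χ' χ'' l' l'', ?_, l', h, h'⟩
  rintro l l'' ⟨l', h, h'⟩
  refine ⟨⟨h.length.trans h'.length, fun j => (h.color j).trans (h'.color j),
    h.eqh.trans h'.eqh⟩, fun a => ?_, fun a => ?_⟩
  · obtain ⟨b, hb⟩ := h.forth a
    obtain ⟨c, hc⟩ := h'.forth b
    exact ⟨c, _, hb, hc⟩
  · obtain ⟨b, hb⟩ := h'.back a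
    obtain ⟨c, hc⟩ := h.back b
    exact ⟨c, _, hc, hb⟩

theorem eqh_dropLast {l : List U} {l' : List V} (h0 : l.length = l'.length)
    (h : eqh l ↔ eqh l') : eqh l.dropLast ↔ eqh l'.dropLast := by
  match l, l', h0 with
  | [], [], _ => exact h
  | [a], [a'], _ => simp [eqh]
  | [a, b], [a', b'], _ => simp [eqh]
  | a :: b :: c :: t, a' :: b' :: c' :: t', _ =>
    simp only [List.dropLast]
    exact h

theorem Sim.dropLast {l : List U} {l' : List V} (h : Sim χ χ' l l') :
    Sim χ χ' l.dropLast l'.dropLast := by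
  by_cases hl : l = []
  · have hl' : l' = [] := by
      have := h.length
      rw [hl] at this
      exact List.length_eq_zero_iff.1 this.symm
    subst hl hl'
    exact h
  refine ⟨fun m m' => ∃ l l', l ≠ [] ∧ Sim χ χ' l l' ∧ m = l.dropLast ∧ m' = l'.dropLast, ?_,
    l, l', hl, h, rfl, rfl⟩
  rintro m m' ⟨l, l', hl, h, rfl, rfl⟩
  have hl' : l' ≠ [] := by
    intro hl'
    have := h.length
    rw [hl', List.length_nil, List.length_eq_zero_iff] at this
    exact hl this
  refine ⟨⟨by simp [h.length], fun j => ?_, eqh_dropLast h.length h.eqh⟩, fun a => ?_,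
    fun a' => ?_⟩
  · rw [List.dropLast_eq_take, List.dropLast_eq_take, List.take_take, List.take_take, h.length]
    exact h.color _
  · obtain ⟨a', ha⟩ := h.forth a
    refine ⟨a', a :: l, a' :: l', by simp, ha, ?_, ?_⟩
    · rw [List.dropLast_cons_of_ne_nil hl]
    · rw [List.dropLast_cons_of_ne_nil hl']
  · obtain ⟨a, ha⟩ := h.back a'
    refine ⟨a, a :: l, a' :: l', by simp, ha, ?_, ?_⟩
    · rw [List.dropLast_cons_of_ne_nil hl]
    · rw [List.dropLast_cons_of_ne_nil hl']

theorem Sim.take {l : List U} {l' : List V} (h : Sim χ χ' l l') (j : ℕ) :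
    Sim χ χ' (l.take j) (l'.take j) := by
  induction hn : l.length - j generalizing l l' with
  | zero =>
    have h1 := h.length
    rw [List.take_of_length_le (by omega), List.take_of_length_le (by omega)]
    exact h
  | succ n ih =>
    have h1 := h.length
    have h2 := ih h.dropLast (by simp; omega)
    rw [List.dropLast_eq_take, List.dropLast_eq_take, List.take_take, List.take_take,
      Nat.min_eq_left (by omega), Nat.min_eq_left (by omega)] at h2
    exact h2

theorem Sim.head {a : U} {l : List U} {a' : V} {l' : List V} (h : Sim χ χ' (a :: l) (a' :: l')) :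
    Sim χ χ' [a] [a'] := h.take 1

/-- An isomorphism. -/
theorem sim_of_iso (f : U ≃ V) (hf : ∀ l, χ' (l.map f) = χ l) (l : List U) :
    Sim χ χ' l (l.map f) := by
  refine ⟨fun l l' => l' = l.map f, ?_, rfl⟩
  rintro l _ rfl
  refine ⟨⟨by simp, fun j => ?_, ?_⟩, fun a => ⟨f a, rfl⟩, fun a' => ⟨f.symm a', by simp⟩⟩
  · rw [← List.map_take, hf]
  · match l with
    | [] => exact Iff.rfl
    | [a] => exact Iff.rfl
    | a :: b :: t => simp [FL.eqh]

end Pool.Agent.H94.FL
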